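import Pool.Agent.helper33.SP.SpecC1S
import Pool.Agent.helper95.DP.Fin

set_option autoImplicit false

namespace TP

open DP MeasureTheory

theorem UJ5_lf {g : (V → Bool) → ℝ} {Λ : Finset V} (h : DepR g (Λ : Set V)) : LF Λ g :=
  fun b b' hb => h b b' fun v hv => hb v hv

theorem UJ5_mx_in {U : Set V} {b b' : V → Bool} {v : V} (h : v ∈ U) : mx U b b' v = b' v := by
  unfold mx; rw [if_pos h]

theorem UJ5_mx_out {U : Set V} {b b' : V → Bool} {v : V} (h : v ∉ U) : mx U b b' v = b v := by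
  unfold mx; rw [if_neg h]

theorem UJ5_lfmx {g : (V → Bool) → ℝ} {Λ : Finset V} (h : DepR g (Λ : Set V)) (U : Set V)
    (b : V → Bool) : LF Λ (fun b' => g (mx U b b')) := by
  intro b' b'' hb
  refine h _ _ fun v hv => ?_
  by_cases hU : v ∈ U
  · rw [UJ5_mx_in hU, UJ5_mx_in hU]; exact hb v hv
  · rw [UJ5_mx_out hU, UJ5_mx_out hU]

theorem UJ5_int {g : (V → Bool) → ℝ} (h : FinR g) (U : Set V) (b : V → Bool) :
    Integrable (fun b' => g (mx U b b')) P1 := by
  obtain ⟨Λ, hΛ⟩ := h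
  exact (UJ5_lfmx hΛ U b).integrable P1

theorem UJ5_dep {U : Set V} {g : (V → Bool) → ℝ} {A : Set V} (h : DepR g A) :
    DepR (av U g) (A \ U) := by
  intro b b' hb
  unfold av
  refine integral_congr_ae (Filter.Eventually.of_forall fun b'' => ?_)
  refine h _ _ fun v hv => ?_
  by_cases hU : v ∈ U
  · rw [UJ5_mx_in hU, UJ5_mx_in hU]
  · rw [UJ5_mx_out hU, UJ5_mx_out hU]; exact hb v ⟨hv, hU⟩

theorem UJ5_mono {g : (V → Bool) → ℝ} {A B : Set V} (h : DepR g A) (hAB : A ⊆ B) : DepR g B :=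
  fun b b' hb => h b b' fun v hv => hb v (hAB hv)

theorem UJ5_avdep {U : Set V} {g : (V → Bool) → ℝ} {A : Set V} (h : DepR g A) :
    DepR (av U g) A := UJ5_mono (UJ5_dep h) Set.sdiff_subset

theorem UJ5_mean {U : Set V} {g : (V → Bool) → ℝ} (h : FinR g) :
    ∫ b, av U g b ∂P1 = ∫ b, g b ∂P1 := by
  classical
  obtain ⟨Λ, hΛ⟩ := h
  have h1 := integral_mix (fun _ : V => (PMF.uniformOfFintype Bool).toMeasure) (UJ5_lf hΛ)
    (Λ.filter (· ∉ U))
  refine Eq.trans ?_ h1
  unfold av P1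
  refine integral_congr_ae (Filter.Eventually.of_forall fun b => ?_)
  refine integral_congr_ae (Filter.Eventually.of_forall fun b' => ?_)
  refine hΛ _ _ fun v hv => ?_
  by_cases hU : v ∈ U
  · rw [UJ5_mx_in hU, if_neg (by simp [hU])]
  · rw [UJ5_mx_out hU, if_pos (Finset.mem_filter.2 ⟨hv, hU⟩)]

theorem UJ5_avav {U U' : Set V} {g : (V → Bool) → ℝ} (h : FinR g) (hUU : Disjoint U U')
    (b : V → Bool) : av U (av U' g) b = av (U ∪ U') g b := by
  classical
  obtain ⟨Λ, hΛ⟩ := h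
  have h1 := integral_mix (fun _ : V => (PMF.uniformOfFintype Bool).toMeasure)
    (UJ5_lfmx hΛ (U ∪ U') b) (Λ.filter (· ∈ U))
  refine Eq.trans ?_ h1
  unfold av P1
  refine integral_congr_ae (Filter.Eventually.of_forall fun b' => ?_)
  refine integral_congr_ae (Filter.Eventually.of_forall fun b'' => ?_)
  refine hΛ _ _ fun v hv => ?_
  by_cases hU' : v ∈ U'
  · have hU : v ∉ U := fun hU => Set.disjoint_left.1 hUU hU hU'
    rw [UJ5_mx_in hU', UJ5_mx_in (Or.inr hU'), if_neg (by simp [hU])]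
  · rw [UJ5_mx_out hU']
    by_cases hU : v ∈ U
    · rw [UJ5_mx_in hU, UJ5_mx_in (Or.inl hU), if_pos (Finset.mem_filter.2 ⟨hv, hU⟩)]
    · rw [UJ5_mx_out hU, UJ5_mx_out (fun h => h.elim hU hU')]

theorem UJ5 : UJ5_stmt := by
  refine ⟨?_, ?_, ?_, ?_, ?_, ?_⟩
  · intro U g hg
    obtain ⟨Λ, hΛ⟩ := hg
    refine ⟨⟨Λ, UJ5_avdep hΛ⟩, ⟨Λ, ?_⟩, (UJ5_lf hΛ).integrable P1, UJ5_mean ⟨Λ, hΛ⟩⟩
    intro b b' hb
    unfold dl
    rw [hΛ b b' hb, UJ5_avdep hΛ b b' hb]
  · intro U g b b' _ hb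
    unfold av
    refine integral_congr_ae (Filter.Eventually.of_forall fun b'' => ?_)
    have : mx U b b'' = mx U b' b'' := by
      funext v
      by_cases hU : v ∈ U
      · rw [UJ5_mx_in hU, UJ5_mx_in hU]
      · rw [UJ5_mx_out hU, UJ5_mx_out hU]; exact hb v hU
    show g (mx U b b'') = g (mx U b' b'')
    rw [this]
  · intro U g h hg hh
    refine ⟨?_, ?_, ?_⟩
    · intro b
      exact integral_add (UJ5_int hg U b) (UJ5_int hh U b)
    · intro r b
      exact integral_const_mul r _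
    · intro hle b
      exact integral_mono (UJ5_int hg U b) (UJ5_int hh U b) fun b' => hle _
  · intro U g h _ _ hinv b
    have : ∀ b' : V → Bool, h (mx U b b') * g (mx U b b') = h b * g (mx U b b') := by
      intro b'
      rw [hinv (mx U b b') b fun v hv => UJ5_mx_out hv]
    unfold av
    rw [integral_congr_ae (Filter.Eventually.of_forall this)]
    exact integral_const_mul _ _
  · intro U U' g hg hUU b
    exact UJ5_avav hg hUU b
  · intro U g A h
    exact UJ5_dep h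

end TP
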