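import Pool.Agent.helper33.SP.SpecC1
import Pool.Agent.helper64.TP.Basic

set_option autoImplicit false

namespace TP

open DP MeasureTheory

theorem UI10_rc_mono {c : V → Bool} {w u : V} (h : c u = false) : rc c w false u = false := by
  unfold rc
  split_ifs
  · rfl
  · exact h

theorem UI10_inX {c : V → Bool} {x p s : V} {m n : ℕ} (hmn : m < n) (hp : sd x p = m)
    (hs : n ≤ sd x s) (h : DP.Con ({w | c w = false} ∩ {z | m ≤ sd x z}) s p) :
    c p = false ∧ inX c x m n p := by
  have hcp : c p = false := h.mem_right.1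
  obtain ⟨u, hu, h1, -⟩ := h.symm.exit (x := x) (m := n) (by omega) hs
  refine ⟨hcp, hp, u, hu, ?_⟩
  rw [hcp]
  refine DP.Con.mono ?_ h1
  intro w hw
  exact ⟨⟨hw.1.2, hw.2⟩, hw.1.1⟩

theorem UI10_main (c c' : V → Bool) (W : Set V) (x s e : V) (r m n : ℕ) (hrm : r + 3 ≤ m)
    (hmn : m < n) (hW : ann x m n ⊆ W) (hc : ∀ w, r + 1 < sd x w → c w = c' w)
    (h : Conn c' false W s e) (hs : n ≤ sd x s) (he : n ≤ sd x e)
    (H : ∀ w ∈ ann x m n, ¬ Conn (rc c w false) false W s e) :
    ∃ p q, c p = false ∧ c q = false ∧ inX c x m n p ∧ inX c x m n q ∧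
      ∀ w ∈ ann x m n, ¬ Conn (rc c w false) false (ann x m n) p q := by
  set W' : Set V := {w | w ∈ W ∧ c' w = false} with hW'
  have hfar : ∀ w, w ∈ W' ∩ {z | m ≤ sd x z} → w ∈ W ∧ c w = false := by
    rintro w ⟨⟨h1, h2⟩, h3⟩
    have h4 : m ≤ sd x w := h3
    exact ⟨h1, by rw [hc w (by omega)]; exact h2⟩
  have hz : ∃ z, sd x z < m ∧ DP.Con W' s z ∧ DP.Con W' z e := by
    by_contra hno
    push Not at hno
    have h1 : DP.Con (W' ∩ {z | m ≤ sd x z}) s e := by
      refine DP.Con.induct h (fun a => DP.Con (W' ∩ {z | m ≤ sd x z}) s a)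
        (DP.Con.refl ⟨DP.Con.mem_left h, by show m ≤ sd x s; omega⟩) ?_
      intro a b ha hb hab hsa hP
      refine hP.tail hab ⟨hb, ?_⟩
      show m ≤ sd x b
      by_contra hlt
      rw [not_le] at hlt
      have hsb : DP.Con W' s b := hsa.tail hab hb
      exact hno b hlt hsb (hsb.symm.trans h)
    have h2 : ((x.1 + m, x.2) : V) ∈ ann x m n := by
      have : sd x (x.1 + m, x.2) = m := by unfold sd; simp
      exact ⟨by omega, by omega⟩
    refine H _ h2 (DP.Con.mono ?_ h1)
    intro w hw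
    exact ⟨(hfar w hw).1, UI10_rc_mono (hfar w hw).2⟩
  obtain ⟨z, hzm, hsz, hze⟩ := hz
  obtain ⟨p, hp, hsp, -⟩ := hsz.enter (x := x) (m := m) (by omega) hzm.le
  obtain ⟨q, hq, heq, -⟩ := hze.symm.enter (x := x) (m := m) (by omega) hzm.le
  have hsub : W' ∩ {z | m ≤ sd x z} ⊆ {w | c w = false} ∩ {z | m ≤ sd x z} := by
    intro w hw
    exact ⟨(hfar w hw).2, hw.2⟩
  have hp' := UI10_inX (c := c) hmn hp hs (DP.Con.mono hsub hsp)
  have hq' := UI10_inX (c := c) hmn hq he (DP.Con.mono hsub heq)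
  refine ⟨p, q, hp'.1, hq'.1, hp'.2, hq'.2, ?_⟩
  intro w hw hcon
  apply H w hw
  have hsub2 : W' ∩ {z | m ≤ sd x z} ⊆ {u | u ∈ W ∧ rc c w false u = false} := by
    intro u hu
    exact ⟨(hfar u hu).1, UI10_rc_mono (hfar u hu).2⟩
  have a1 : Conn (rc c w false) false W s p := DP.Con.mono hsub2 hsp
  have a2 : Conn (rc c w false) false W q e := (DP.Con.mono hsub2 heq).symm
  exact (a1.trans (hcon.mono hW)).trans a2

theorem UI10_fl {c : V → Bool} {R : Set V} {s e : V} :
    Conn (fl c) false R s e ↔ Conn c true R s e := by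
  have h : {w | w ∈ R ∧ fl c w = false} = {w | w ∈ R ∧ c w = true} := by
    ext w
    simp [fl]
  unfold Conn
  rw [h]

theorem UI10_rc_upd (b : V → Bool) (w : V) (k : Bool) :
    col (Function.update b (br w) k) = rc (col b) w k := by
  funext u
  unfold col rc
  by_cases h : br u = br w
  · rw [if_pos h, h, Function.update_self]
  · rw [if_neg h, Function.update_of_ne h]

theorem UI10_rc_fl (c : V → Bool) (w : V) : rc (fl c) w false = fl (rc c w true) := by
  funext u
  unfold rc fl
  by_cases h : br u = br w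
  · simp [h]
  · simp [h]

theorem UI10 (hHX : HX_stmt) (hRC : RC_stmt) : UI10_stmt := by
  intro i b x v r m n N hrm hmn hnN hbox hv hvr hgap
  set R : Set V := rect 1 (2 * 2 ^ i) 0 (hh (2 ^ i)) with hR
  obtain ⟨hvV, b', b'', hbb, hb', hb''⟩ := hv
  have hve : (v.1 + v.2) % 2 = 0 := (Finset.mem_filter.1 hvV).2
  have hann : ann x m n ⊆ R := fun w hw => hbox (show sd x w ≤ N from by have := hw.2; omega)
  -- distances of the sides of the rectangle
  have hL : ((x.1 - N, x.2) : V) ∈ R := hbox (by show sd x _ ≤ N; unfold sd; simp)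
  have hRt : ((x.1 + N, x.2) : V) ∈ R := hbox (by show sd x _ ≤ N; unfold sd; simp)
  have hBo : ((x.1, x.2 - N) : V) ∈ R := hbox (by show sd x _ ≤ N; unfold sd; simp)
  have hTo : ((x.1, x.2 + N) : V) ∈ R := hbox (by show sd x _ ≤ N; unfold sd; simp)
  have dL : ∀ s : V, s.1 = 1 → n ≤ sd x s := by
    intro s hs
    have h1 := hL.1
    simp only at h1
    unfold sd
    omega
  have dR : ∀ s : V, s.1 = 2 * 2 ^ i → n ≤ sd x s := by
    intro s hs
    have h1 := hRt.2.1
    simp only at h1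
    unfold sd
    omega
  have dB : ∀ s : V, s.2 = 0 → n ≤ sd x s := by
    intro s hs
    have h1 := hBo.2.2.1
    simp only at h1
    unfold sd
    omega
  have dT : ∀ s : V, s.2 = (hh (2 ^ i) : ℤ) → n ≤ sd x s := by
    intro s hs
    have h1 := hTo.2.2.2
    simp only at h1
    unfold sd
    omega
  -- the colourings agree far from v
  have hagree : ∀ (b₁ : V → Bool), (∀ u, u ≠ v → b₁ u = b u) → ∀ w, r + 1 < sd x w →
      col b w = col b₁ w := by
    intro b₁ h1 w hw
    unfold col
    rw [h1]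
    intro h2
    have h3 : br w = br v := by rw [h2, br_of_even hve]
    have h4 := br_eq_sd h3
    have h5 := sd_triangle x v w
    rw [sd_comm v w] at h5
    omega
  -- sites of the annulus are not pivotal
  have hnp : ∀ w ∈ ann x m n, b ∉ Piv {br w} (Fc i) := by
    intro w hw hpiv
    have h1 := sd_br_le w
    have h2 := sd_triangle x w (br w)
    have h3 := sd_triangle x (br w) w
    rw [sd_comm (br w) w] at h3
    have h4 : m ≤ sd x w := hw.1
    have h5 : sd x w ≤ n := hw.2
    refine hgap (br w) ⟨?_, hpiv⟩ ⟨by omega, by omega⟩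
    have h6 := hann hw
    obtain ⟨h7, h8, h9, h10⟩ := h6
    refine Finset.mem_filter.2 ⟨Finset.mem_product.2 ⟨Finset.mem_Icc.2 ?_, Finset.mem_Icc.2 ?_⟩,
      br_even w⟩
    · rcases br_fst w with h | h <;> constructor <;> omega
    · rw [br_snd]
      exact ⟨h9, h10⟩
  constructor
  · intro hb
    have hb''2 : ¬ hcross (col b'') true 1 (2 * 2 ^ i) 0 (hh (2 ^ i)) := hb''
    have hpos : (1 : ℤ) ≤ 2 * 2 ^ i := by
      have : (0 : ℤ) < 2 ^ i := by positivity
      omega
    rcases hHX (col b'') true 1 (2 * 2 ^ i) 0 (hh (2 ^ i)) hpos (by positivity) with h | h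
    · exact absurd h hb''2
    obtain ⟨s, e, hs, he, hse⟩ := h
    refine UI10_main (col b) (col b'') R x s e r m n hrm hmn hann
      (hagree b'' fun u hu => (hbb u hu).2) hse (dB s hs) (dT e he) ?_
    intro w hw hcon
    rw [← UI10_rc_upd] at hcon
    have hF : Function.update b (br w) false ∈ Fc i := by
      by_contra hnF
      refine hnp w hw ⟨b, Function.update b (br w) false, fun u hu => ⟨rfl, ?_⟩, hb, hnF⟩
      exact Function.update_of_ne hu _ _
    obtain ⟨s', e', hs', he', hcon'⟩ := hF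
    obtain ⟨z, hz1, hz2⟩ := hRC 1 (2 * 2 ^ i) 0 (hh (2 ^ i)) _ _ (fun _ h => h.1) (fun _ h => h.1)
      s' e' s e hs' he' hs he hcon' hcon
    have e1 := hz1.2
    have e2 := hz2.2
    rw [e1] at e2
    exact absurd e2 (by decide)
  · intro hb
    obtain ⟨s, e, hs, he, hse⟩ := hb'
    refine UI10_main (fl (col b)) (fl (col b')) R x s e r m n hrm hmn hann ?_
      (UI10_fl.2 hse) (dL s hs) (dR e he) ?_
    · intro w hw
      unfold fl
      rw [hagree b' (fun u hu => (hbb u hu).1) w hw]
    · intro w hw hcon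
      rw [UI10_rc_fl, ← UI10_rc_upd, UI10_fl] at hcon
      have hF : Function.update b (br w) true ∉ Fc i := by
        intro hF
        refine hnp w hw ⟨Function.update b (br w) true, b, fun u hu => ⟨?_, rfl⟩, hF, hb⟩
        exact Function.update_of_ne hu _ _
      exact hF ⟨s, e, hs, he, hcon⟩

end TP
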