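import Pool.Agent.helper52.SP.Main

/-!
# The asymptotic lower bound
-/

namespace Pool.Agent.helper52.SP

open Finset Filter Pool.Agent.helper70.Sachs

/-- the bound for one dimension -/
lemma one_dim {n c : ℕ} (hc : chi n ≤ c) (hn : 1 ≤ n) (h1 : 1 ≤ Real.log (Real.log n))
    (h2 : 72 * Real.log (Real.log n) ≤ Real.log n) :
    Real.exp (Real.log n ^ 2 / (1152 * Real.log (Real.log n))) ≤ c := by
  set L := Real.log n with hL
  set l := Real.log L with hl
  have hL72 : 72 ≤ L := by linarith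
  have hLpos : 0 < L := by linarith
  have hlpos : 0 < l := by linarith
  have hnpos : (0 : ℝ) < n := by
    have : 0 < n := by omega
    exact_mod_cast this
  have hexpL : Real.exp L = n := Real.exp_log hnpos
  have hexpl : Real.exp l = L := Real.exp_log hLpos
  -- the number `d`
  set d : ℕ := ⌊L / (36 * l)⌋₊ with hd
  have hd1 : (d : ℝ) ≤ L / (36 * l) := Nat.floor_le (by positivity)
  have hd2 : L / (36 * l) < d + 1 := Nat.lt_floor_add_one _
  have hd3 : 2 ≤ L / (36 * l) := by
    rw [le_div_iff₀ (by positivity)]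
    linarith
  have hd4 : L / (72 * l) ≤ d := by
    have h3 : L / (36 * l) = 2 * (L / (72 * l)) := by
      field_simp
      norm_num
    rw [h3] at hd2 hd3
    linarith
  have hd5 : 1 ≤ d := by
    have h3 : (1 : ℝ) < d + 1 := by linarith
    have h4 : (0 : ℝ) < d := by linarith
    have h5 : 0 < d := by exact_mod_cast h4
    omega
  -- a prime number
  set m : ℕ := ⌊Real.exp (L / 3) / 2⌋₊ with hm
  have hm1 : (m : ℝ) ≤ Real.exp (L / 3) / 2 := Nat.floor_le (by positivity)
  have hm2 : Real.exp (L / 3) / 2 < m + 1 := Nat.lt_floor_add_one _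
  have hexp6 : 128 ≤ Real.exp (L / 6) := by
    have h3 : (12 : ℝ) ≤ L / 6 := by linarith
    have h4 : Real.exp 12 ≤ Real.exp (L / 6) := Real.exp_le_exp.mpr h3
    have h5 : Real.exp 12 = Real.exp 1 ^ 12 := by
      rw [← Real.exp_nat_mul]
      norm_num
    have h6 : (2 : ℝ) ^ 12 ≤ Real.exp 1 ^ 12 :=
      pow_le_pow_left₀ (by norm_num) (by linarith [Real.exp_one_gt_d9]) 12
    have h7 : (2 : ℝ) ^ 12 = 4096 := by norm_num
    linarith
  have hexp3 : Real.exp (L / 3) = Real.exp (L / 6) * Real.exp (L / 6) := by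
    rw [← Real.exp_add]
    congr 1
    ring
  have hm0 : m ≠ 0 := by
    intro h
    rw [h] at hm2
    have h3 : 128 * 128 ≤ Real.exp (L / 3) := by
      rw [hexp3]
      exact mul_le_mul hexp6 hexp6 (by norm_num) (by positivity)
    push_cast at hm2
    linarith
  obtain ⟨q, hq, hmq, hq2m⟩ := Nat.exists_prime_lt_and_le_two_mul m hm0
  have hqle : (q : ℝ) ≤ Real.exp (L / 3) := by
    have h3 : (q : ℝ) ≤ 2 * m := by exact_mod_cast hq2m
    linarith
  have hqge : Real.exp (L / 3) / 2 ≤ q := by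
    have h3 : ((m + 1 : ℕ) : ℝ) ≤ q := by exact_mod_cast hmq
    push_cast at h3
    linarith
  have hq3 : q ^ 3 ≤ n := by
    have h3 : (q : ℝ) ^ 3 ≤ n := by
      rw [← hexpL]
      calc (q : ℝ) ^ 3 ≤ Real.exp (L / 3) ^ 3 := pow_le_pow_left₀ (by positivity) hqle 3
        _ = Real.exp L := by
          rw [← Real.exp_nat_mul]
          congr 1
          push_cast
          ring
    exact_mod_cast h3
  have hdq : 64 * (12 * d) ^ (6 * d) ≤ q := by
    have h3 : (12 * d : ℝ) ≤ L := by
      have h4 : L / (36 * l) ≤ L / 36 := by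
        refine div_le_div_of_nonneg_left hLpos.le (by norm_num) (by linarith)
      linarith
    have h4 : ((12 * d : ℝ)) ^ (6 * d) ≤ Real.exp (L / 6) := by
      calc ((12 * d : ℝ)) ^ (6 * d) ≤ L ^ (6 * d) := pow_le_pow_left₀ (by positivity) h3 _
        _ = Real.exp ((6 * d : ℕ) * l) := by
            rw [Real.exp_nat_mul, hexpl]
        _ ≤ Real.exp (L / 6) := by
            rw [Real.exp_le_exp]
            push_cast
            rw [le_div_iff₀ (by positivity)] at hd1
            linarith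
    have h5 : (64 * (12 * d) ^ (6 * d) : ℝ) ≤ q := by
      refine le_trans ?_ hqge
      rw [hexp3]
      nlinarith [mul_le_mul_of_nonneg_right hexp6 (Real.exp_pos (L / 6)).le]
    exact_mod_cast h5
  have hmain := main_q hq hd5 hdq hq3 hc
  have hmainr : (q : ℝ) ^ d ≤ 625 * (c : ℝ) ^ 2 := by exact_mod_cast hmain
  -- lower bound for `q ^ d`
  have hq4 : Real.exp (L / 4) ≤ q := by
    refine le_trans ?_ hqge
    have h3 : Real.exp (L / 3) = Real.exp (L / 4) * Real.exp (L / 12) := by
      rw [← Real.exp_add]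
      congr 1
      ring
    have h4 : 2 ≤ Real.exp (L / 12) := by
      have h5 := Real.add_one_le_exp (L / 12)
      linarith
    rw [h3]
    nlinarith [Real.exp_pos (L / 4)]
  have h3 : Real.exp (L ^ 2 / (288 * l)) ≤ (q : ℝ) ^ d := by
    calc Real.exp (L ^ 2 / (288 * l)) ≤ Real.exp (d * (L / 4)) := by
          rw [Real.exp_le_exp]
          have h4 : L ^ 2 / (288 * l) = L / (72 * l) * (L / 4) := by
            field_simp
            norm_num
          rw [h4]
          exact mul_le_mul_of_nonneg_right hd4 (by positivity)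
      _ = Real.exp (L / 4) ^ d := by rw [Real.exp_nat_mul]
      _ ≤ (q : ℝ) ^ d := pow_le_pow_left₀ (Real.exp_pos _).le hq4 d
  set E := Real.exp (L ^ 2 / (1152 * l)) with hE
  have hEpos : 0 < E := Real.exp_pos _
  have h4 : E ^ 4 = Real.exp (L ^ 2 / (288 * l)) := by
    rw [hE, ← Real.exp_nat_mul]
    congr 1
    push_cast
    field_simp
    norm_num
  have h25 : 25 ≤ E := by
    have h5 : (4 : ℝ) ≤ L ^ 2 / (1152 * l) := by
      rw [le_div_iff₀ (by positivity)]
      nlinarith
    have h6 : Real.exp 4 ≤ E := Real.exp_le_exp.mpr h5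
    have h7 : Real.exp 4 = Real.exp 1 ^ 4 := by
      rw [← Real.exp_nat_mul]
      norm_num
    have h8 : (2.7 : ℝ) ^ 4 ≤ Real.exp 1 ^ 4 :=
      pow_le_pow_left₀ (by norm_num) (by linarith [Real.exp_one_gt_d9]) 4
    have h9 : (25 : ℝ) ≤ 2.7 ^ 4 := by norm_num
    linarith
  have h5 : (25 * E) ^ 2 ≤ (25 * (c : ℝ)) ^ 2 := by
    calc (25 * E) ^ 2 = (25 * 25) * E ^ 2 := by ring
      _ ≤ (E * E) * E ^ 2 :=
        mul_le_mul_of_nonneg_right (mul_le_mul h25 h25 (by norm_num) hEpos.le) (by positivity)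
      _ = E ^ 4 := by ring
      _ ≤ 625 * (c : ℝ) ^ 2 := by rw [h4]; exact h3.trans hmainr
      _ = (25 * (c : ℝ)) ^ 2 := by ring
  have h6 : 25 * E ≤ 25 * (c : ℝ) := le_of_sq_le_sq h5 (by positivity)
  linarith

/-- quasipolynomial lower bound -/
theorem quasi : ∀ᶠ n : ℕ in atTop,
    ((⌈Real.exp (Real.log n ^ 2 / (1152 * Real.log (Real.log n)))⌉₊ : ℕ) : ℕ∞) ≤ chi n := by
  have hlog : Tendsto (fun n : ℕ => Real.log (n : ℝ)) atTop atTop :=
    Real.tendsto_log_atTop.comp tendsto_natCast_atTop_atTop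
  have hloglog : Tendsto (fun n : ℕ => Real.log (Real.log (n : ℝ))) atTop atTop :=
    Real.tendsto_log_atTop.comp hlog
  have h1 : ∀ᶠ n : ℕ in atTop, 1 ≤ Real.log (Real.log (n : ℝ)) := hloglog.eventually_ge_atTop 1
  have h2 : ∀ᶠ x : ℝ in atTop, 72 * Real.log x ≤ x := by
    have h3 := Real.isLittleO_log_id_atTop.bound (show (0 : ℝ) < 1 / 72 by norm_num)
    filter_upwards [h3, eventually_ge_atTop 1] with x hx hx1
    rw [Real.norm_eq_abs, Real.norm_eq_abs, abs_of_nonneg (Real.log_nonneg hx1), id_eq,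
      abs_of_nonneg (by linarith)] at hx
    linarith
  have h3 : ∀ᶠ n : ℕ in atTop, 72 * Real.log (Real.log (n : ℝ)) ≤ Real.log n := hlog.eventually h2
  filter_upwards [h1, h3, eventually_ge_atTop 1] with n hn1 hn2 hn3
  by_contra h
  push Not at h
  obtain ⟨c, hc⟩ := ENat.ne_top_iff_exists.mp h.ne_top
  rw [← hc] at h
  have h4 : c < ⌈Real.exp (Real.log n ^ 2 / (1152 * Real.log (Real.log n)))⌉₊ := by exact_mod_cast h
  have h5 := one_dim (n := n) (c := c) hc.symm.le hn3 hn1 hn2
  have h6 := Nat.ceil_le.mpr h5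
  omega

/-- the lower bound is superpolynomial -/
theorem superpoly (A : ℕ) : ∀ᶠ n : ℕ in atTop, ((n ^ A : ℕ) : ℕ∞) ≤ chi n := by
  have hlog : Tendsto (fun n : ℕ => Real.log (n : ℝ)) atTop atTop :=
    Real.tendsto_log_atTop.comp tendsto_natCast_atTop_atTop
  have hloglog : Tendsto (fun n : ℕ => Real.log (Real.log (n : ℝ))) atTop atTop :=
    Real.tendsto_log_atTop.comp hlog
  have h2 : ∀ᶠ x : ℝ in atTop, (1152 * (A + 1)) * Real.log x ≤ x := by
    have h3 := Real.isLittleO_log_id_atTop.bound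
      (show (0 : ℝ) < 1 / (1152 * (A + 1)) by positivity)
    filter_upwards [h3, eventually_ge_atTop 1] with x hx hx1
    rw [Real.norm_eq_abs, Real.norm_eq_abs, abs_of_nonneg (Real.log_nonneg hx1), id_eq,
      abs_of_nonneg (by linarith), one_div, inv_mul_eq_div, le_div_iff₀ (by positivity)] at hx
    linarith
  filter_upwards [quasi, hlog.eventually h2, eventually_ge_atTop 1, hlog.eventually_ge_atTop 1,
    hloglog.eventually_ge_atTop 1] with n hn1 hn2 hn3 hn4 hn5
  refine le_trans ?_ hn1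
  have hnpos : (0 : ℝ) < n := by
    have : 0 < n := by omega
    exact_mod_cast this
  have h5 : ((n ^ A : ℕ) : ℝ) ≤ Real.exp (Real.log n ^ 2 / (1152 * Real.log (Real.log n))) := by
    have h6 : ((n ^ A : ℕ) : ℝ) = Real.exp (A * Real.log n) := by
      rw [Real.exp_nat_mul, Real.exp_log hnpos]
      push_cast
      rfl
    rw [h6, Real.exp_le_exp, le_div_iff₀ (by positivity)]
    have h7 : 1152 * (A : ℝ) * Real.log (Real.log n) ≤ Real.log n := by
      refine le_trans ?_ hn2
      refine mul_le_mul_of_nonneg_right ?_ (by linarith)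
      linarith
    nlinarith [mul_le_mul_of_nonneg_left h7 (show (0 : ℝ) ≤ Real.log n by linarith)]
  have h6 : n ^ A ≤ ⌈Real.exp (Real.log n ^ 2 / (1152 * Real.log (Real.log n)))⌉₊ := by
    have h7 := Nat.ceil_le_ceil h5
    rwa [Nat.ceil_natCast] at h7
  exact_mod_cast h6

end Pool.Agent.helper52.SP
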