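import Pool.Agent.helper52.SP.Ham

/-!
# Supersaturation

`A` is a finite vector space over the finite field `F` with `q` elements, `C₁` a set of nonzero
vectors of `A` closed under nonzero scalars; `touch C₁ d` is the set of vectors of `A^k` with
exactly `d` nonzero coordinates, all of them in `C₁`. Every set `U` of vectors of `A^k` of density
at least `2 k / (C(k, d) (q - 1))` contains about the expected number of pairs with difference in
`touch C₁ d`.
-/

namespace Pool.Agent.helper52.SP

open Finset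

variable {F : Type*} [Field F] [Fintype F] [DecidableEq F] {ι : Type*} [Fintype ι] [DecidableEq ι]
  {A : Type*} [AddCommGroup A] [Module F A] [Fintype A] [DecidableEq A]

/-- the touching differences -/
def touch (ι : Type*) [Fintype ι] [DecidableEq ι] {A : Type*} [AddCommGroup A] [Fintype A]
    [DecidableEq A] (C₁ : Finset A) (d : ℕ) : Finset (ι → A) :=
  univ.filter fun t => hammingNorm t = d ∧ ∀ i, t i ≠ 0 → t i ∈ C₁

/-- the autocorrelation of a function -/
def corr (u : (ι → A) → ℝ) (t : ι → A) : ℝ := ∑ x, u x * u (x + t)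

omit [DecidableEq A] in
/-- the inequality for one vector `g` -/
lemma one_g (u : (ι → A) → ℝ) (hu : ∀ x, u x ^ 2 = u x) (d : ℕ) (hd : 1 ≤ d) {ψ : AddChar F ℂ}
    (hψ : ψ.IsPrimitive)
    (hk : (Fintype.card ι : ℝ) * d ≤ (Fintype.card F : ℝ) - 1) (g : ι → A) :
    ((Fintype.card ι).choose d : ℝ) * ((Fintype.card F : ℝ) - 1) ^ d * (∑ x, u x) ^ 2 ≤
      (Fintype.card (ι → A) : ℝ) *
        (∑ s ∈ (univ : Finset (ι → F)).filter (fun s => hammingNorm s = d),
            corr u (fun i => s i • g i) +
          (Fintype.card ι : ℝ) * ((Fintype.card F : ℝ) - 1) ^ (d - 1) * ∑ x, u x) := by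
  set q : ℝ := (Fintype.card F : ℝ) with hq
  set k := Fintype.card ι with hkk
  set W := (univ : Finset (ι → F)).filter (fun s => hammingNorm s = d) with hW
  have hqpos : 0 < q := by
    have : 0 < Fintype.card F := Fintype.card_pos
    rw [hq]
    exact_mod_cast this
  -- the function on `F^ι`
  set f : (ι → A) → (ι → F) → ℝ := fun x c => u (x + fun i => c i • g i) with hf
  have hcard : (Fintype.card (ι → F) : ℝ) = q ^ k := by
    rw [Fintype.card_fun]
    push_cast
    rfl
  have h1 : ∀ x, (k.choose d : ℝ) * (q - 1) ^ d * (∑ c, f x c) ^ 2 ≤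
      q ^ k * (∑ s ∈ W, ∑ c, f x c * f x (c + s) + k * (q - 1) ^ (d - 1) * ∑ c, f x c ^ 2) :=
    fun x => hamming_ineq (f x) d hd hψ hk
  have htrans : ∀ (v : ι → A) (h : (ι → A) → ℝ), ∑ x, h (x + v) = ∑ x, h x := fun v h =>
    Fintype.sum_equiv (Equiv.addRight v) _ _ fun x => rfl
  -- sums over `x`
  have h2 : ∑ x, ∑ c, f x c = q ^ k * ∑ x, u x := by
    rw [Finset.sum_comm]
    rw [Finset.sum_congr rfl fun c _ => htrans (fun i => c i • g i) u]
    rw [Finset.sum_const, Finset.card_univ, nsmul_eq_mul, hcard]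
  have h3 : ∑ x, ∑ c, f x c ^ 2 = q ^ k * ∑ x, u x := by
    rw [← h2]
    refine Finset.sum_congr rfl fun x _ => Finset.sum_congr rfl fun c _ => hu _
  have h4 : ∑ x, ∑ s ∈ W, ∑ c, f x c * f x (c + s) =
      q ^ k * ∑ s ∈ W, corr u (fun i => s i • g i) := by
    rw [Finset.sum_comm, Finset.mul_sum]
    refine Finset.sum_congr rfl fun s _ => ?_
    rw [Finset.sum_comm]
    have h5 : ∀ c : ι → F, ∑ x, f x c * f x (c + s) = corr u (fun i => s i • g i) := by
      intro c
      unfold corr
      rw [← htrans (fun i => c i • g i) (fun x => u x * u (x + fun i => s i • g i))]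
      refine Finset.sum_congr rfl fun x _ => ?_
      simp only [hf]
      congr 2
      rw [add_assoc]
      congr 1
      funext i
      simp only [Pi.add_apply, add_smul]
    rw [Finset.sum_congr rfl fun c _ => h5 c, Finset.sum_const, Finset.card_univ, nsmul_eq_mul,
      hcard]
  have h6 := Finset.sum_le_sum fun x (_ : x ∈ (univ : Finset (ι → A))) => h1 x
  rw [← Finset.mul_sum, ← Finset.mul_sum, Finset.sum_add_distrib, ← Finset.mul_sum, h4, h3] at h6
  have h7 : (∑ x, ∑ c, f x c) ^ 2 ≤ (Fintype.card (ι → A) : ℝ) * ∑ x, (∑ c, f x c) ^ 2 := by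
    have := sq_sum_le_card_mul_sum_sq (s := (univ : Finset (ι → A))) (f := fun x => ∑ c, f x c)
    rw [Finset.card_univ] at this
    exact this
  rw [h2] at h7
  have hq1 : 0 ≤ q - 1 := le_trans (by positivity) hk
  have hv : (0 : ℝ) < Fintype.card (ι → A) := by
    have : 0 < Fintype.card (ι → A) := Fintype.card_pos
    exact_mod_cast this
  have hqk : 0 < q ^ k := by positivity
  have h8 : (k.choose d : ℝ) * (q - 1) ^ d * (q ^ k * ∑ x, u x) ^ 2 ≤
      (Fintype.card (ι → A) : ℝ) * (q ^ k * (q ^ k * ∑ s ∈ W, corr u (fun i => s i • g i) +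
        k * (q - 1) ^ (d - 1) * (q ^ k * ∑ x, u x))) := by
    calc (k.choose d : ℝ) * (q - 1) ^ d * (q ^ k * ∑ x, u x) ^ 2
        ≤ (k.choose d : ℝ) * (q - 1) ^ d *
          ((Fintype.card (ι → A) : ℝ) * ∑ x, (∑ c, f x c) ^ 2) :=
          mul_le_mul_of_nonneg_left h7 (by positivity)
      _ = (Fintype.card (ι → A) : ℝ) *
          ((k.choose d : ℝ) * (q - 1) ^ d * ∑ x, (∑ c, f x c) ^ 2) := by ring
      _ ≤ _ := mul_le_mul_of_nonneg_left h6 hv.le
  have h9 : (q ^ k * q ^ k) * ((k.choose d : ℝ) * (q - 1) ^ d * (∑ x, u x) ^ 2) ≤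
      (q ^ k * q ^ k) * ((Fintype.card (ι → A) : ℝ) * (∑ s ∈ W, corr u (fun i => s i • g i) +
        k * (q - 1) ^ (d - 1) * ∑ x, u x)) := by
    refine le_trans (le_of_eq ?_) (h8.trans (le_of_eq ?_)) <;> ring
  exact le_of_mul_le_mul_left h9 (by positivity)

/-- number of representations -/
lemma rep_count {C₁ : Finset A} (h0 : (0 : A) ∉ C₁) (hsm : ∀ c : F, c ≠ 0 → ∀ g ∈ C₁, c • g ∈ C₁)
    (d : ℕ) (t : ι → A) (ht : t ∈ touch ι C₁ d) :
    ∑ g ∈ Fintype.piFinset (fun _ : ι => C₁), ∑ s : ι → F,
        (if (fun i => s i • g i) = t then (1 : ℝ) else 0) =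
      ((Fintype.card F : ℝ) - 1) ^ d * (C₁.card : ℝ) ^ (Fintype.card ι - d) := by
  classical
  simp only [touch, mem_filter, mem_univ, true_and] at ht
  obtain ⟨ht1, ht2⟩ := ht
  have h1 : ∀ (g : ι → A) (s : ι → F), (if (fun i => s i • g i) = t then (1 : ℝ) else 0) =
      ∏ i, (if s i • g i = t i then (1 : ℝ) else 0) := by
    intro g s
    rw [Finset.prod_boole]
    congr 1
    simp only [mem_univ, forall_true_left, eq_iff_iff]
    exact funext_iff
  have h2 : ∀ g : ι → A, ∑ s : ι → F, ∏ i, (if s i • g i = t i then (1 : ℝ) else 0) =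
      ∏ i, ∑ c : F, (if c • g i = t i then (1 : ℝ) else 0) := by
    intro g
    rw [Finset.prod_univ_sum, Fintype.piFinset_univ]
  simp only [h1, h2]
  rw [← Finset.prod_univ_sum (fun _ : ι => C₁)
    (fun i (a : A) => ∑ c : F, (if c • a = t i then (1 : ℝ) else 0))]
  have h3 : ∀ i, ∑ a ∈ C₁, ∑ c : F, (if c • a = t i then (1 : ℝ) else 0) =
      if t i ≠ 0 then ((Fintype.card F : ℝ) - 1) else (C₁.card : ℝ) := by
    intro i
    by_cases hti : t i = 0
    · rw [if_neg (by simpa using hti)]
      have h4 : ∀ a ∈ C₁, ∑ c : F, (if c • a = t i then (1 : ℝ) else 0) = 1 := by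
        intro a ha
        have ha0 : a ≠ 0 := fun h => h0 (h ▸ ha)
        have h5 : ∀ c : F, (if c • a = t i then (1 : ℝ) else 0) = if c = 0 then 1 else 0 := by
          intro c
          rw [hti]
          by_cases hc : c = 0
          · simp [hc]
          · rw [if_neg hc, if_neg]
            exact smul_ne_zero hc ha0
        rw [Finset.sum_congr rfl fun c _ => h5 c, Finset.sum_ite_eq' univ (0 : F),
          if_pos (mem_univ _)]
      rw [Finset.sum_congr rfl h4, Finset.sum_const, nsmul_eq_mul, mul_one]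
    · rw [if_pos hti, Finset.sum_comm]
      have h4 : ∀ c : F, ∑ a ∈ C₁, (if c • a = t i then (1 : ℝ) else 0) =
          if c = 0 then 0 else 1 := by
        intro c
        by_cases hc : c = 0
        · rw [if_pos hc]
          refine Finset.sum_eq_zero fun a _ => ?_
          rw [hc, zero_smul, if_neg (fun h => hti h.symm)]
        · rw [if_neg hc]
          have h5 : ∀ a : A, (if c • a = t i then (1 : ℝ) else 0) =
              if a = c⁻¹ • t i then 1 else 0 := by
            intro a
            have : c • a = t i ↔ a = c⁻¹ • t i := by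
              constructor
              · intro h
                rw [← h, smul_smul, inv_mul_cancel₀ hc, one_smul]
              · intro h
                rw [h, smul_smul, mul_inv_cancel₀ hc, one_smul]
            simp only [this]
          rw [Finset.sum_congr rfl fun a _ => h5 a, Finset.sum_ite_eq' C₁, if_pos]
          exact hsm _ (inv_ne_zero hc) _ (ht2 i hti)
      rw [Finset.sum_congr rfl fun c _ => h4 c]
      have h5 : ∀ c : F, (if c = 0 then (0 : ℝ) else 1) = 1 - if c = 0 then 1 else 0 := by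
        intro c
        split_ifs <;> simp
      rw [Finset.sum_congr rfl fun c _ => h5 c, Finset.sum_sub_distrib,
        Finset.sum_ite_eq' univ (0 : F), if_pos (mem_univ _), Finset.sum_const, Finset.card_univ,
        nsmul_eq_mul, mul_one]
  rw [Finset.prod_congr rfl fun i _ => h3 i, Finset.prod_ite, Finset.prod_const,
    Finset.prod_const]
  have h6 : (univ.filter fun i => t i ≠ 0).card = d := ht1
  have h7 : (univ.filter fun i => ¬ t i ≠ 0).card = Fintype.card ι - d := by
    have := Finset.card_filter_add_card_filter_not (s := (univ : Finset ι)) (fun i => t i ≠ 0)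
    rw [Finset.card_univ, h6] at this
    omega
  rw [h6, h7]

/-- **supersaturation** -/
theorem supersat {C₁ : Finset A} (h0 : (0 : A) ∉ C₁)
    (hsm : ∀ c : F, c ≠ 0 → ∀ g ∈ C₁, c • g ∈ C₁) (hne : C₁.Nonempty)
    (d : ℕ) (hd : 1 ≤ d) (hdk : d ≤ Fintype.card ι) {ψ : AddChar F ℂ} (hψ : ψ.IsPrimitive)
    (hk : (Fintype.card ι : ℝ) * d ≤ (Fintype.card F : ℝ) - 1) (U : Finset (ι → A))
    (hU : 2 * (Fintype.card ι : ℝ) * (Fintype.card (ι → A) : ℝ) ≤
      ((Fintype.card ι).choose d : ℝ) * ((Fintype.card F : ℝ) - 1) * U.card) :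
    ((Fintype.card ι).choose d : ℝ) * (C₁.card : ℝ) ^ d * (U.card : ℝ) ^ 2 ≤
      2 * (Fintype.card (ι → A) : ℝ) *
        ∑ x ∈ U, ((U.filter fun y => y - x ∈ touch ι C₁ d).card : ℝ) := by
  classical
  set q : ℝ := (Fintype.card F : ℝ) with hq
  set k := Fintype.card ι with hkk
  set v : ℝ := (Fintype.card (ι → A) : ℝ) with hv
  set W := (univ : Finset (ι → F)).filter (fun s => hammingNorm s = d) with hW
  set u : (ι → A) → ℝ := fun x => if x ∈ U then 1 else 0 with hu
  have husq : ∀ x, u x ^ 2 = u x := by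
    intro x
    simp only [hu]
    split_ifs <;> norm_num
  have hunn : ∀ x, 0 ≤ u x := by
    intro x
    simp only [hu]
    split_ifs <;> norm_num
  have hsumu : ∑ x, u x = U.card := by
    simp only [hu]
    rw [Finset.sum_boole]
    simp
  have hvpos : 0 < v := by
    have : 0 < Fintype.card (ι → A) := Fintype.card_pos
    rw [hv]
    exact_mod_cast this
  have hk0 : (0 : ℝ) < k := by
    have : 0 < k := by omega
    exact_mod_cast this
  have hd1 : (1 : ℝ) ≤ d := by exact_mod_cast hd
  have hq1 : 0 < q - 1 := lt_of_lt_of_le (by positivity) hk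
  -- corr is the number of pairs
  have hcorr : ∑ t ∈ touch ι C₁ d, corr u t =
      ∑ x ∈ U, ((U.filter fun y => y - x ∈ touch ι C₁ d).card : ℝ) := by
    unfold corr
    rw [Finset.sum_comm]
    have h1 : ∀ x, ∑ t ∈ touch ι C₁ d, u x * u (x + t) =
        if x ∈ U then ((U.filter fun y => y - x ∈ touch ι C₁ d).card : ℝ) else 0 := by
      intro x
      by_cases hx : x ∈ U
      · rw [if_pos hx]
        have hux : u x = 1 := if_pos hx
        simp only [hux, one_mul]
        simp only [hu]
        rw [Finset.sum_boole]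
        congr 1
        refine Finset.card_bij (fun t _ => x + t) ?_ ?_ ?_
        · intro t ht
          rw [mem_filter] at ht ⊢
          exact ⟨ht.2, by rw [add_sub_cancel_left]; exact ht.1⟩
        · intro t _ t' _ h
          exact add_left_cancel h
        · intro y hy
          rw [mem_filter] at hy
          refine ⟨y - x, ?_, by abel⟩
          rw [mem_filter]
          exact ⟨hy.2, by rw [add_sub_cancel]; exact hy.1⟩
      · rw [if_neg hx]
        have hux : u x = 0 := if_neg hx
        simp [hux]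
    rw [Finset.sum_congr rfl fun x _ => h1 x, ← Finset.sum_filter]
    congr 1
    ext x
    simp
  have hcnn : ∀ t, 0 ≤ corr u t := fun t =>
    Finset.sum_nonneg fun x _ => mul_nonneg (hunn _) (hunn _)
  -- sum over g
  have hsum : ∑ g ∈ Fintype.piFinset (fun _ : ι => C₁), ∑ s ∈ W, corr u (fun i => s i • g i) ≤
      ((q - 1) ^ d * (C₁.card : ℝ) ^ (k - d)) * ∑ t ∈ touch ι C₁ d, corr u t := by
    rw [Finset.mul_sum]
    have h1 : ∀ g ∈ Fintype.piFinset (fun _ : ι => C₁), ∀ s ∈ W, corr u (fun i => s i • g i) =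
        ∑ t ∈ touch ι C₁ d, (if (fun i => s i • g i) = t then (1 : ℝ) else 0) * corr u t := by
      intro g hg s hs
      have hmem : (fun i => s i • g i) ∈ touch ι C₁ d := by
        rw [Fintype.mem_piFinset] at hg
        simp only [hW, mem_filter, mem_univ, true_and] at hs
        simp only [touch, mem_filter, mem_univ, true_and]
        have hg0 : ∀ i, g i ≠ 0 := fun i h => h0 (h ▸ hg i)
        constructor
        · rw [← hs, hammingNorm, hammingNorm]
          congr 1
          ext i
          simp only [mem_filter, mem_univ, true_and, ne_eq, smul_eq_zero, hg0 i, or_false]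
        · intro i hi
          apply hsm _ _ _ (hg i)
          intro h
          apply hi
          rw [h, zero_smul]
      rw [Finset.sum_eq_single (fun i => s i • g i)]
      · rw [if_pos rfl, one_mul]
      · intro t _ ht
        rw [if_neg (fun h => ht h.symm), zero_mul]
      · intro h
        exact absurd hmem h
    rw [Finset.sum_congr rfl fun g hg => Finset.sum_congr rfl (h1 g hg)]
    have h2 : ∀ g ∈ Fintype.piFinset (fun _ : ι => C₁),
        ∑ s ∈ W, ∑ t ∈ touch ι C₁ d, (if (fun i => s i • g i) = t then (1 : ℝ) else 0) * corr u t =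
        ∑ t ∈ touch ι C₁ d, ∑ s ∈ W,
          (if (fun i => s i • g i) = t then (1 : ℝ) else 0) * corr u t :=
      fun g _ => Finset.sum_comm
    rw [Finset.sum_congr rfl h2, Finset.sum_comm]
    refine Finset.sum_le_sum fun t ht => ?_
    rw [← rep_count (F := F) h0 hsm d t ht, Finset.sum_mul]
    refine Finset.sum_le_sum fun g _ => ?_
    rw [← Finset.sum_mul]
    refine mul_le_mul_of_nonneg_right ?_ (hcnn t)
    refine Finset.sum_le_sum_of_subset_of_nonneg (Finset.subset_univ _) ?_
    intro s _ _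
    split_ifs <;> norm_num
  have hG : ((Fintype.piFinset (fun _ : ι => C₁)).card : ℝ) =
      (C₁.card : ℝ) ^ d * (C₁.card : ℝ) ^ (k - d) := by
    rw [Fintype.card_piFinset, Finset.prod_const, Finset.card_univ, ← pow_add,
      Nat.add_sub_cancel' hdk]
    push_cast
    rfl
  have hall := Finset.sum_le_sum fun g (_ : g ∈ Fintype.piFinset (fun _ : ι => C₁)) =>
    one_g (F := F) u husq d hd hψ hk g
  rw [Finset.sum_const, nsmul_eq_mul, ← Finset.mul_sum, Finset.sum_add_distrib, Finset.sum_const,
    nsmul_eq_mul, hsumu, hG] at hall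
  rw [← hcorr]
  set R := ∑ t ∈ touch ι C₁ d, corr u t with hR
  set a : ℝ := (C₁.card : ℝ) ^ (k - d) with ha
  have hC : 0 < (C₁.card : ℝ) := by
    have := Finset.card_pos.mpr hne
    exact_mod_cast this
  have hapos : 0 < a := by positivity
  set b : ℝ := (C₁.card : ℝ) ^ d with hb
  have hbpos : 0 < b := by positivity
  set m : ℝ := (U.card : ℝ) with hm
  have hm0 : 0 ≤ m := by positivity
  set K : ℝ := (k.choose d : ℝ) with hK
  obtain ⟨e, rfl⟩ : ∃ e, d = e + 1 := ⟨d - 1, by omega⟩
  rw [Nat.add_sub_cancel] at hall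
  set p : ℝ := (q - 1) ^ e with hp
  have hppos : 0 < p := by positivity
  have hpp : (q - 1) ^ (e + 1) = (q - 1) * p := by rw [pow_succ]; ring
  rw [hpp] at hall hsum
  -- main computation
  have h1 : b * a * (K * ((q - 1) * p) * m ^ 2) ≤
      v * (((q - 1) * p * a) * R + b * a * (k * p * m)) := by
    refine hall.trans ?_
    refine mul_le_mul_of_nonneg_left ?_ hvpos.le
    linarith
  have h2 : (a * p) * (b * K * (q - 1) * m ^ 2) ≤ (a * p) * (v * ((q - 1) * R + b * (k * m))) := by
    refine le_trans (le_of_eq ?_) (h1.trans (le_of_eq ?_)) <;> ring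
  have h3 : b * K * (q - 1) * m ^ 2 ≤ v * ((q - 1) * R + b * (k * m)) :=
    le_of_mul_le_mul_left h2 (by positivity)
  have h4 : 2 * (b * (v * (k * m))) ≤ b * (K * (q - 1) * m ^ 2) := by
    have h5 : m * (2 * k * v) ≤ m * (K * (q - 1) * m) := mul_le_mul_of_nonneg_left hU hm0
    have h6 : b * (m * (2 * k * v)) ≤ b * (m * (K * (q - 1) * m)) :=
      mul_le_mul_of_nonneg_left h5 hbpos.le
    calc 2 * (b * (v * (k * m))) = b * (m * (2 * k * v)) := by ring
      _ ≤ b * (m * (K * (q - 1) * m)) := h6
      _ = b * (K * (q - 1) * m ^ 2) := by ring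
  have h5 : (q - 1) * (K * b * m ^ 2) ≤ (q - 1) * (2 * v * R) := by
    nlinarith [h3, h4]
  exact le_of_mul_le_mul_left h5 hq1

end Pool.Agent.helper52.SP
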