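import Pool.Agent.helper49.SP.SpecAS

set_option autoImplicit false

namespace TP

open DP MeasureTheory

theorem B2_P1 : IsProbabilityMeasure P1 := by
  unfold P1
  infer_instance

theorem B2 : B2_stmt := by
  intro i
  haveI := B2_P1
  refine ⟨?_, ?_, ?_⟩
  · intro A B h
    exact measureReal_mono (fun b hb => h _ hb) (measure_ne_top _ _)
  · intro A B
    exact measureReal_union_le _ _
  · intro A
    exact ⟨measureReal_nonneg, measureReal_le_one⟩

end TP
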