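import Mathlib

/-!
# Polynomials of degree less than `κ` over a finite field
-/

namespace Pool.Agent.helper52.SP

open Finset Polynomial

variable {F : Type*} [Field F] [Fintype F] [DecidableEq F] {κ : ℕ}

/-- the value at `a` of the polynomial with coefficients `x` -/
def ev (x : Fin κ → F) (a : F) : F := ∑ j, x j * a ^ (j : ℕ)

/-- number of zeros -/
def zc (x : Fin κ → F) : ℕ := (univ.filter fun a : F => ev x a = 0).card

/-- the polynomials with the largest possible number of zeros -/
def C1 (F : Type*) [Field F] [Fintype F] [DecidableEq F] (κ : ℕ) : Finset (Fin κ → F) :=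
  univ.filter fun x => x ≠ 0 ∧ zc x = κ - 1

/-- the polynomial -/
noncomputable def pol (x : Fin κ → F) : F[X] := ∑ j, C (x j) * X ^ (j : ℕ)

omit [Fintype F] [DecidableEq F] in
lemma pol_eval (x : Fin κ → F) (a : F) : (pol x).eval a = ev x a := by
  simp [pol, ev, eval_finsetSum]

omit [Fintype F] [DecidableEq F] in
lemma pol_coeff (x : Fin κ → F) (j : Fin κ) : (pol x).coeff j = x j := by
  unfold pol
  rw [finsetSum_coeff]
  rw [Finset.sum_eq_single j]
  · simp
  · intro i _ hij
    rw [coeff_C_mul_X_pow, if_neg]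
    intro h
    exact hij (Fin.ext h.symm)
  · intro h
    exact absurd (mem_univ _) h

omit [Fintype F] [DecidableEq F] in
lemma pol_degree (x : Fin κ → F) : (pol x).degree < κ := by
  unfold pol
  rw [degree_lt_iff_coeff_zero]
  intro m hm
  rw [finsetSum_coeff]
  refine Finset.sum_eq_zero fun j _ => ?_
  rw [coeff_C_mul_X_pow, if_neg]
  have := j.2
  omega

omit [Fintype F] [DecidableEq F] in
lemma pol_ne_zero {x : Fin κ → F} (hx : x ≠ 0) : pol x ≠ 0 := by
  obtain ⟨j, hj⟩ := Function.ne_iff.mp hx
  intro h
  apply hj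
  rw [← pol_coeff x j, h]
  simp

lemma zc_le {x : Fin κ → F} (hx : x ≠ 0) : zc x ≤ κ - 1 := by
  have h0 := pol_ne_zero hx
  have h1 : (univ.filter fun a : F => ev x a = 0) ⊆ (pol x).roots.toFinset := by
    intro a ha
    rw [mem_filter] at ha
    rw [Multiset.mem_toFinset, mem_roots h0, IsRoot.def, pol_eval]
    exact ha.2
  have h2 : (pol x).roots.toFinset.card ≤ (pol x).natDegree :=
    (Multiset.toFinset_card_le _).trans (card_roots' _)
  have h3 : (pol x).natDegree < κ := by
    rw [natDegree_lt_iff_degree_lt h0]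
    exact pol_degree x
  have h4 := Finset.card_le_card h1
  unfold zc
  omega

omit [Fintype F] [DecidableEq F] in
lemma ev_smul (c : F) (x : Fin κ → F) (a : F) : ev (c • x) a = c * ev x a := by
  unfold ev
  rw [Finset.mul_sum]
  refine Finset.sum_congr rfl fun j _ => ?_
  simp [mul_assoc]

omit [Fintype F] [DecidableEq F] in
lemma ev_sub (x y : Fin κ → F) (a : F) : ev (x - y) a = ev x a - ev y a := by
  unfold ev
  rw [← Finset.sum_sub_distrib]
  refine Finset.sum_congr rfl fun j _ => ?_
  simp [sub_mul]

lemma C1_zero : (0 : Fin κ → F) ∉ C1 F κ := by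
  simp [C1]

lemma C1_smul : ∀ c : F, c ≠ 0 → ∀ g ∈ C1 F κ, c • g ∈ C1 F κ := by
  intro c hc g hg
  simp only [C1, mem_filter, mem_univ, true_and] at hg ⊢
  refine ⟨smul_ne_zero hc hg.1, ?_⟩
  rw [← hg.2]
  unfold zc
  congr 1
  ext a
  simp only [mem_filter, mem_univ, true_and, ev_smul, mul_eq_zero, hc, false_or]

lemma C1_card (hκ : 1 ≤ κ) : (Fintype.card F).choose (κ - 1) ≤ (C1 F κ).card := by
  classical
  rw [← Finset.card_univ, ← Finset.card_powersetCard]
  -- the polynomial with zero set `I`
  let p : Finset F → F[X] := fun I => ∏ a ∈ I, (X - C a)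
  let f : Finset F → (Fin κ → F) := fun I j => (p I).coeff j
  have hdeg : ∀ I : Finset F, I.card = κ - 1 → (p I).degree < κ := by
    intro I hI
    have h1 : (p I).natDegree = κ - 1 := by
      rw [natDegree_prod_of_monic _ _ (fun a _ => monic_X_sub_C a)]
      simp [hI]
    have h2 : (p I) ≠ 0 := (monic_prod_of_monic _ _ (fun a _ => monic_X_sub_C a)).ne_zero
    rw [← natDegree_lt_iff_degree_lt h2, h1]
    omega
  have hpol : ∀ I : Finset F, I.card = κ - 1 → pol (f I) = p I := by
    intro I hI
    ext m
    rcases Nat.lt_or_ge m κ with h | h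
    · have := pol_coeff (f I) ⟨m, h⟩
      simpa [f] using this
    · have h1 : (pol (f I)).coeff m = 0 := by
        apply coeff_eq_zero_of_degree_lt
        exact lt_of_lt_of_le (pol_degree _) (by exact_mod_cast h)
      have h2 : (p I).coeff m = 0 := by
        apply coeff_eq_zero_of_degree_lt
        exact lt_of_lt_of_le (hdeg I hI) (by exact_mod_cast h)
      rw [h1, h2]
  have hev : ∀ I : Finset F, I.card = κ - 1 →
      (univ.filter fun a : F => ev (f I) a = 0) = I := by
    intro I hI
    ext a
    simp only [mem_filter, mem_univ, true_and]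
    rw [← pol_eval, hpol I hI]
    simp only [p]
    rw [eval_prod, Finset.prod_eq_zero_iff]
    constructor
    · rintro ⟨b, hb, h⟩
      rw [eval_sub, eval_X, eval_C, sub_eq_zero] at h
      rw [h]
      exact hb
    · intro ha
      exact ⟨a, ha, by simp⟩
  refine Finset.card_le_card_of_injOn f ?_ ?_
  · intro I hI
    rw [Finset.mem_coe, mem_powersetCard] at hI
    simp only [C1, coe_filter, mem_univ, true_and, Set.mem_ofPred_eq]
    refine ⟨?_, ?_⟩
    · intro h
      have h1 := hpol I hI.2
      have h2 : (p I) ≠ 0 := (monic_prod_of_monic _ _ (fun a _ => monic_X_sub_C a)).ne_zero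
      apply h2
      rw [← h1, h]
      simp [pol]
    · unfold zc
      rw [hev I hI.2, hI.2]
  · intro I hI J hJ hIJ
    rw [Finset.mem_coe, mem_powersetCard] at hI hJ
    rw [← hev I hI.2, ← hev J hJ.2, hIJ]

end Pool.Agent.helper52.SP
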