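import Pool.Agent.helper70.SA.Pack
import Pool.Agent.helper52.SP.RS
import Pool.Agent.helper52.SP.Avg

/-!
# The configuration of points
-/

namespace Pool.Agent.helper52.SP

open Finset Pool.Agent.helper70.Sachs

/-- a system of vectors with squared distances at least `D` gives a packing of unit spheres; a
colouring of the touching graph is a colouring of the vectors in which vectors with squared
distance exactly `D` have different colours -/
theorem chi_config {X J : Type*} [Fintype J] {n : ℕ} (hn : Fintype.card J ≤ n) (u : X → J → ℝ)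
    {D : ℝ} (hD : 0 < D)
    (hsep : ∀ x y, x ≠ y → D ≤ ip (u x) (u x) + ip (u y) (u y) - 2 * ip (u x) (u y)) {c : ℕ}
    (hc : chi n ≤ c) : ∃ f : X → Fin c, ∀ x y, x ≠ y →
      ip (u x) (u x) + ip (u y) (u y) - 2 * ip (u x) (u y) = D → f x ≠ f y := by
  classical
  obtain ⟨ι⟩ : Nonempty (J ↪ Fin n) :=
    Function.Embedding.nonempty_of_card_le (by simpa using hn)
  set r : ℝ := Real.sqrt (4 / D) with hr
  have hr2 : r ^ 2 = 4 / D := Real.sq_sqrt (by positivity)
  have hdist : ∀ x y, dist (pt ι r (u x)) (pt ι r (u y)) ^ 2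
      = 4 / D * (ip (u x) (u x) + ip (u y) (u y) - 2 * ip (u x) (u y)) := by
    intro x y
    rw [dist_pt ι.injective, hr2]
  have hDD : 4 / D * D = 2 ^ 2 := by
    rw [div_mul_cancel₀ _ hD.ne']
    norm_num
  let M : Set (EuclideanSpace ℝ (Fin n)) := Set.range fun x => pt ι r (u x)
  have hM : IsPacking M := by
    rintro _ ⟨x, rfl⟩ _ ⟨y, rfl⟩ hxy
    have hne : x ≠ y := fun h => hxy (by rw [h])
    have h1 : (2 : ℝ) ^ 2 ≤ dist (pt ι r (u x)) (pt ι r (u y)) ^ 2 := by
      rw [hdist, ← hDD]
      exact mul_le_mul_of_nonneg_left (hsep x y hne) (by positivity)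
    exact le_of_sq_le_sq h1 dist_nonneg
  have hcol : (touchingGraph M).Colorable c := by
    rw [← SimpleGraph.chromaticNumber_le_iff_colorable]
    exact (le_iSup (fun M : {M : Set (EuclideanSpace ℝ (Fin n)) // IsPacking M} =>
      (touchingGraph M.1).chromaticNumber) ⟨M, hM⟩).trans hc
  obtain ⟨Cc⟩ := hcol
  refine ⟨fun x => Cc ⟨pt ι r (u x), x, rfl⟩, ?_⟩
  intro x y hxy hxyD hf
  have hadj : (touchingGraph M).Adj ⟨pt ι r (u x), x, rfl⟩ ⟨pt ι r (u y), y, rfl⟩ := by
    have h1 : dist (pt ι r (u x)) (pt ι r (u y)) ^ 2 = 2 ^ 2 := by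
      rw [hdist, hxyD, hDD]
    exact (sq_eq_sq₀ dist_nonneg (by norm_num)).mp h1
  exact Cc.valid hadj hf

variable {F : Type*} [Field F] [Fintype F] [DecidableEq F] {κ k : ℕ}

/-- the vector of a tuple of polynomials -/
def vec (x : Fin k → (Fin κ → F)) (p : Fin k × F × F) : ℝ :=
  if ev (x p.1) p.2.1 = p.2.2 then 1 else 0

lemma ip_vec (x y : Fin k → (Fin κ → F)) :
    ip (vec x) (vec y) = ∑ i, (zc (y i - x i) : ℝ) := by
  unfold ip
  rw [Fintype.sum_prod_type]
  refine Finset.sum_congr rfl fun i _ => ?_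
  rw [Fintype.sum_prod_type]
  unfold zc
  rw [Finset.card_filter]
  push_cast
  refine Finset.sum_congr rfl fun a _ => ?_
  rw [ev_sub]
  have h1 : ∀ b : F, vec x (i, a, b) * vec y (i, a, b) =
      if b = ev (x i) a then (if ev (y i) a - ev (x i) a = 0 then (1 : ℝ) else 0) else 0 := by
    intro b
    simp only [vec]
    by_cases hb : b = ev (x i) a
    · subst hb
      by_cases h : ev (y i) a = ev (x i) a
      · simp [h]
      · rw [if_pos rfl, if_neg h, if_pos rfl, if_neg (by rwa [sub_eq_zero])]
        ring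
    · rw [if_neg (fun h => hb h.symm), if_neg hb, zero_mul]
  rw [Finset.sum_congr rfl fun b _ => h1 b, Finset.sum_ite_eq' univ, if_pos (mem_univ _)]

lemma zc_zero : zc (0 : Fin κ → F) = Fintype.card F := by
  unfold zc
  rw [← Finset.card_univ]
  congr 1
  ext a
  simp [ev]

/-- the squared distance -/
lemma sqd (x y : Fin k → (Fin κ → F)) :
    ip (vec x) (vec x) + ip (vec y) (vec y) - 2 * ip (vec x) (vec y) =
      2 * ∑ i, ((Fintype.card F : ℝ) - zc (y i - x i)) := by
  rw [ip_vec, ip_vec, ip_vec]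
  simp only [sub_self, zc_zero]
  rw [Finset.sum_sub_distrib]
  ring

lemma sqd_ge (hκ : 1 ≤ κ) (hκq : κ ≤ Fintype.card F) (d : ℕ) (x y : Fin k → (Fin κ → F))
    (hxy : d ≤ hammingNorm (y - x)) :
    2 * (d * ((Fintype.card F : ℝ) - (κ - 1 : ℕ))) ≤
      ip (vec x) (vec x) + ip (vec y) (vec y) - 2 * ip (vec x) (vec y) := by
  rw [sqd]
  refine mul_le_mul_of_nonneg_left ?_ (by norm_num)
  have hnn : (0 : ℝ) ≤ (Fintype.card F : ℝ) - (κ - 1 : ℕ) := by
    have : κ - 1 ≤ Fintype.card F := by omega
    rw [sub_nonneg]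
    exact_mod_cast this
  have h1 : ∀ i, (if (y - x) i ≠ 0 then ((Fintype.card F : ℝ) - (κ - 1 : ℕ)) else 0) ≤
      (Fintype.card F : ℝ) - zc (y i - x i) := by
    intro i
    by_cases h : (y - x) i = 0
    · rw [if_neg (by simpa using h)]
      have h2 : zc (y i - x i) = Fintype.card F := by
        rw [← zc_zero (κ := κ)]
        congr 1
      rw [h2, sub_self]
    · rw [if_pos h]
      have h2 := zc_le h
      have h3 : ((zc (y i - x i) : ℕ) : ℝ) ≤ (κ - 1 : ℕ) := by exact_mod_cast h2
      linarith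
  refine le_trans ?_ (Finset.sum_le_sum fun i _ => h1 i)
  rw [← Finset.sum_filter, Finset.sum_const, nsmul_eq_mul]
  refine mul_le_mul_of_nonneg_right ?_ hnn
  exact_mod_cast hxy

lemma sqd_touch (d : ℕ) (x y : Fin k → (Fin κ → F))
    (hxy : y - x ∈ touch (Fin k) (C1 F κ) d) :
    ip (vec x) (vec x) + ip (vec y) (vec y) - 2 * ip (vec x) (vec y) =
      2 * (d * ((Fintype.card F : ℝ) - (κ - 1 : ℕ))) := by
  rw [sqd]
  simp only [touch, mem_filter, mem_univ, true_and] at hxy
  obtain ⟨h1, h2⟩ := hxy
  have h3 : ∀ i, (Fintype.card F : ℝ) - zc (y i - x i) =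
      (if (y - x) i ≠ 0 then ((Fintype.card F : ℝ) - (κ - 1 : ℕ)) else 0) := by
    intro i
    by_cases h : (y - x) i = 0
    · rw [if_neg (by simpa using h)]
      have h4 : zc (y i - x i) = Fintype.card F := by
        rw [← zc_zero (κ := κ)]
        congr 1
      rw [h4, sub_self]
    · rw [if_pos h]
      have h4 := h2 i h
      simp only [C1, mem_filter, mem_univ, true_and] at h4
      have h5 : zc (y i - x i) = κ - 1 := h4.2
      rw [h5]
  rw [Finset.sum_congr rfl fun i _ => h3 i, ← Finset.sum_filter, Finset.sum_const, nsmul_eq_mul]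
  congr 2
  exact_mod_cast h1

/-- number of vectors with less than `d` nonzero coordinates -/
lemma few_nonzero {ι : Type*} [Fintype ι] [DecidableEq ι] {A : Type*} [AddCommGroup A] [Fintype A]
    [DecidableEq A] {d : ℕ} (hd : 1 ≤ d) (hdk : d ≤ Fintype.card ι) :
    ((univ : Finset (ι → A)).filter fun t => hammingNorm t < d).card ≤
      (Fintype.card ι).choose (d - 1) * Fintype.card A ^ (d - 1) := by
  classical
  have h1 : ((univ : Finset (ι → A)).filter fun t => hammingNorm t < d) ⊆
      ((univ : Finset ι).powersetCard (d - 1)).biUnion fun S =>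
        Fintype.piFinset fun i => if i ∈ S then univ else {0} := by
    intro t ht
    simp only [mem_filter, mem_univ, true_and] at ht
    have h2 : (univ.filter fun i => t i ≠ 0).card ≤ d - 1 := by
      have : (univ.filter fun i => t i ≠ 0).card = hammingNorm t := rfl
      omega
    obtain ⟨S, hS1, hS2⟩ := Finset.exists_superset_card_eq h2 (by omega)
    rw [mem_biUnion]
    refine ⟨S, ?_, ?_⟩
    · rw [mem_powersetCard]
      exact ⟨Finset.subset_univ _, hS2⟩
    · rw [Fintype.mem_piFinset]
      intro i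
      by_cases hi : i ∈ S
      · rw [if_pos hi]
        exact mem_univ _
      · rw [if_neg hi, mem_singleton]
        by_contra h
        exact hi (hS1 (by simp [h]))
  refine (Finset.card_le_card h1).trans (Finset.card_biUnion_le.trans ?_)
  have h2 : ∀ S ∈ (univ : Finset ι).powersetCard (d - 1),
      (Fintype.piFinset fun i => if i ∈ S then (univ : Finset A) else {0}).card =
        Fintype.card A ^ (d - 1) := by
    intro S hS
    rw [mem_powersetCard] at hS
    rw [Fintype.card_piFinset]
    have h3 : ∀ i, (if i ∈ S then (univ : Finset A) else {0}).card =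
        if i ∈ S then Fintype.card A else 1 := by
      intro i
      split_ifs <;> simp
    rw [Finset.prod_congr rfl fun i _ => h3 i, Finset.prod_ite, Finset.prod_const_one, mul_one,
      Finset.prod_const]
    congr 1
    rw [← hS.2]
    congr 1
    ext i
    simp
  rw [Finset.sum_congr rfl h2, Finset.sum_const, Finset.card_powersetCard, Finset.card_univ,
    smul_eq_mul]

end Pool.Agent.helper52.SP
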