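import Mathlib

/-!
# The exact distance graph of the Hamming scheme

For functions `f` on `F^ι` (`F` a finite field with `q` elements, `ι` of cardinality `k`) and
`1 ≤ δ` with `k δ ≤ q - 1` we bound the sum of `f x * f (x + s)` over all `x` and all `s` with
exactly `δ` nonzero coordinates from below (least eigenvalue of the distance `δ` graph).
-/

namespace Pool.Agent.helper52.SP

open Finset Polynomial

/-! ### coefficients of `(1 + Q X)^z (1 - X)^w` -/

section coeffs

/-- the coefficient of `X^d` in `(1 + Q X)^z (1 - X)^w` -/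
noncomputable def E (Q : ℝ) (z w d : ℕ) : ℝ := ((1 + C Q * X) ^ z * (1 - X) ^ w : ℝ[X]).coeff d

lemma E_zero_w (Q : ℝ) (z d : ℕ) : E Q z 0 d = z.choose d * Q ^ d := by
  unfold E
  rw [pow_zero, mul_one]
  have : (1 + C Q * X : ℝ[X]) ^ z = ((1 + X : ℝ[X]) ^ z).comp (C Q * X) := by
    simp
  rw [this, comp_C_mul_X_coeff, coeff_one_add_X_pow]

lemma E_succ_zero (Q : ℝ) (z w : ℕ) : E Q z w 0 = 1 := by
  unfold E
  rw [coeff_zero_eq_eval_zero]
  simp

lemma E_succ (Q : ℝ) (z w d : ℕ) : E Q z (w + 1) (d + 1) = E Q z w (d + 1) - E Q z w d := by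
  unfold E
  rw [pow_succ, ← mul_assoc, mul_sub, mul_one, coeff_sub, coeff_mul_X]

lemma E_low {Q : ℝ} (hQ : 0 ≤ Q) (z w : ℕ) : ∀ d, d ≤ z → (w : ℝ) * d ≤ Q →
    0 ≤ E Q z w d ∧ E Q z w d ≤ z.choose d * Q ^ d ∧
      ∀ d', d = d' + 1 → z.choose d * Q ^ d - w * (z.choose d' * Q ^ d') ≤ E Q z w d := by
  induction w with
  | zero =>
    intro d _ _
    rw [E_zero_w]
    refine ⟨by positivity, le_rfl, ?_⟩
    intro d' _
    simp
  | succ w ih =>
    intro d hd hw
    rcases Nat.eq_zero_or_pos d with h | h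
    · subst h
      rw [E_succ_zero]
      simp
    · obtain ⟨e, rfl⟩ : ∃ e, d = e + 1 := ⟨d - 1, by omega⟩
      push_cast at hw
      have he : (0 : ℝ) ≤ e := by positivity
      have hw0 : (0 : ℝ) ≤ w := by positivity
      obtain ⟨h1, h2, h3⟩ := ih (e + 1) hd (by push_cast; nlinarith)
      obtain ⟨h4, h5, -⟩ := ih e (by omega) (by nlinarith)
      have h6 := h3 e rfl
      have hlow : z.choose (e + 1) * Q ^ (e + 1) - (w + 1) * (z.choose e * Q ^ e)
          ≤ E Q z (w + 1) (e + 1) := by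
        rw [E_succ]
        linarith
      refine ⟨?_, ?_, ?_⟩
      · refine le_trans ?_ hlow
        have h7 : ((z.choose e : ℕ) : ℝ) ≤ (e + 1) * z.choose (e + 1) := by
          have h8 := Nat.choose_succ_right_eq z e
          have h9 : z.choose e ≤ z.choose e * (z - e) := Nat.le_mul_of_pos_right _ (by omega)
          have h10 : z.choose e ≤ (e + 1) * z.choose (e + 1) := by
            rw [mul_comm]
            omega
          exact_mod_cast h10
        have h11 : ((w : ℝ) + 1) * (z.choose e * Q ^ e)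
            ≤ z.choose (e + 1) * Q ^ (e + 1) := by
          calc ((w : ℝ) + 1) * (z.choose e * Q ^ e)
              ≤ ((w : ℝ) + 1) * (((e + 1) * z.choose (e + 1)) * Q ^ e) := by
                refine mul_le_mul_of_nonneg_left ?_ (by positivity)
                exact mul_le_mul_of_nonneg_right h7 (by positivity)
            _ = (((w : ℝ) + 1) * (e + 1)) * (z.choose (e + 1) * Q ^ e) := by ring
            _ ≤ Q * (z.choose (e + 1) * Q ^ e) := by
                refine mul_le_mul_of_nonneg_right hw (by positivity)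
            _ = z.choose (e + 1) * Q ^ (e + 1) := by ring
        linarith
      · rw [E_succ]
        linarith
      · intro d' hd'
        obtain rfl : e = d' := by omega
        push_cast
        exact hlow

lemma E_high {Q : ℝ} (hQ : 0 ≤ Q) (z w : ℕ) (hw : (w : ℝ) * z ≤ Q) :
    ∀ r, |E Q z w (z + r)| ≤ (w : ℝ) ^ r * Q ^ z := by
  induction w with
  | zero =>
    intro r
    rw [E_zero_w]
    rcases Nat.eq_zero_or_pos r with h | h
    · subst h
      simp [abs_of_nonneg (pow_nonneg hQ z)]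
    · rw [Nat.choose_eq_zero_of_lt (by omega)]
      simp only [Nat.cast_zero, zero_mul, abs_zero]
      positivity
  | succ w ih =>
    intro r
    rcases Nat.eq_zero_or_pos r with h | h
    · subst h
      obtain ⟨h1, h2, -⟩ := E_low hQ z (w + 1) z le_rfl hw
      rw [add_zero, abs_of_nonneg h1]
      simpa using h2
    · obtain ⟨r, rfl⟩ : ∃ s, r = s + 1 := ⟨r - 1, by omega⟩
      have hw' : (w : ℝ) * z ≤ Q := by
        push_cast at hw
        have : (0 : ℝ) ≤ z := by positivity
        nlinarith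
      rw [← add_assoc, E_succ]
      refine (abs_sub _ _).trans ?_
      have h1 := ih hw' (r + 1)
      have h2 := ih hw' r
      rw [← add_assoc] at h1
      refine (add_le_add h1 h2).trans ?_
      rw [← add_mul]
      refine mul_le_mul_of_nonneg_right ?_ (by positivity)
      have h3 : (w : ℝ) ^ (r + 1) + (w : ℝ) ^ r = (w : ℝ) ^ r * (w + 1) := by ring
      rw [h3, pow_succ]
      push_cast
      refine mul_le_mul_of_nonneg_right ?_ (by positivity)
      exact pow_le_pow_left₀ (by positivity) (by linarith) r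

/-- the lower bound for the eigenvalues -/
lemma E_lower {Q : ℝ} (z w k d : ℕ) (hzw : z + w = k) (hd : 1 ≤ d)
    (hk : (k : ℝ) * d ≤ Q) : -(k * Q ^ (d - 1)) ≤ E Q z w d := by
  have hk0 : (0 : ℝ) ≤ k := by positivity
  have hd1 : (1 : ℝ) ≤ d := by exact_mod_cast hd
  have hQ : 0 ≤ Q := le_trans (by positivity) hk
  have hkQ : (k : ℝ) ≤ Q := by nlinarith
  have hwk : (w : ℝ) ≤ k := by
    have : w ≤ k := by omega
    exact_mod_cast this
  rcases Nat.lt_or_ge z d with h | h
  · obtain ⟨r, rfl⟩ : ∃ r, d = z + (r + 1) := ⟨d - z - 1, by omega⟩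
    have hz : (w : ℝ) * z ≤ Q := by
      refine le_trans ?_ hk
      push_cast
      have hz0 : (0 : ℝ) ≤ z := by positivity
      have hr0 : (0 : ℝ) ≤ r := by positivity
      have hw0 : (0 : ℝ) ≤ w := by positivity
      nlinarith [mul_le_mul_of_nonneg_right hwk hz0, mul_nonneg hk0 hr0]
    have h1 := E_high hQ z w hz (r + 1)
    have h2 := neg_le_of_abs_le h1
    refine le_trans ?_ h2
    rw [neg_le_neg_iff]
    have h3 : z + (r + 1) - 1 = r + z := by omega
    have h4 : (w : ℝ) ^ (r + 1) * Q ^ z = w * (w ^ r * Q ^ z) := by ring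
    have h5 : (k : ℝ) * Q ^ (r + z) = k * (Q ^ r * Q ^ z) := by ring
    rw [h3, h4, h5]
    refine mul_le_mul hwk ?_ (by positivity) hk0
    refine mul_le_mul_of_nonneg_right ?_ (by positivity)
    exact pow_le_pow_left₀ (by positivity) (hwk.trans hkQ) r
  · have h1 := (E_low hQ z w d h ((mul_le_mul_of_nonneg_right hwk (by positivity)).trans hk)).1
    refine le_trans ?_ h1
    rw [neg_nonpos]
    positivity

end coeffs

/-! ### characters -/

section characters

variable {F : Type*} [Field F] [Fintype F] [DecidableEq F] {ι : Type*} [Fintype ι] [DecidableEq ι]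

omit [Fintype F] [DecidableEq F] [Fintype ι] in
lemma addChar_sum (ψ : AddChar F ℂ) (y : ι → F) (s : Finset ι) :
    ψ (∑ i ∈ s, y i) = ∏ i ∈ s, ψ (y i) := by
  induction s using Finset.induction_on with
  | empty => simp
  | insert a s ha ih => rw [Finset.sum_insert ha, Finset.prod_insert ha, AddChar.map_add_eq_mul, ih]

/-- the generating function of the character sums over vectors of given Hamming weight -/
lemma gen_fun {ψ : AddChar F ℂ} (hψ : ψ.IsPrimitive) (a : ι → F) :
    ∑ s : ι → F, C (ψ (∑ i, a i * s i)) * X ^ hammingNorm s =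
      ((1 + C (((Fintype.card F : ℝ) - 1 : ℝ) : ℂ) * X) ^ (univ.filter fun i => a i = 0).card *
        (1 - X) ^ (univ.filter fun i => ¬ a i = 0).card : ℂ[X]) := by
  have h1 : ∀ s : ι → F, C (ψ (∑ i, a i * s i)) * X ^ hammingNorm s =
      ∏ i, (C (ψ (a i * s i)) * (if s i ≠ 0 then X else 1) : ℂ[X]) := by
    intro s
    rw [Finset.prod_mul_distrib, addChar_sum, map_prod]
    congr 1
    rw [Finset.prod_ite, Finset.prod_const_one, mul_one, Finset.prod_const, hammingNorm]
  have h2 : ∑ s : ι → F, ∏ i, (C (ψ (a i * s i)) * (if s i ≠ 0 then X else 1) : ℂ[X]) =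
      ∏ i, ∑ c : F, (C (ψ (a i * c)) * (if c ≠ 0 then X else 1) : ℂ[X]) := by
    rw [Finset.prod_univ_sum, Fintype.piFinset_univ]
  have h3 : ∀ i, ∑ c : F, (C (ψ (a i * c)) * (if c ≠ 0 then X else 1) : ℂ[X]) =
      if a i = 0 then (1 + C (((Fintype.card F : ℝ) - 1 : ℝ) : ℂ) * X) else (1 - X) := by
    intro i
    have h4 : ∀ c : F, (C (ψ (a i * c)) * (if c ≠ 0 then X else 1) : ℂ[X]) =
        C (ψ (c * a i)) * X + if c = 0 then (1 - X) else 0 := by
      intro c
      by_cases hc : c = 0
      · subst hc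
        rw [if_neg (by simp), if_pos rfl, mul_zero, zero_mul, AddChar.map_zero_eq_one, map_one]
        ring
      · rw [if_pos hc, if_neg hc, add_zero, mul_comm (a i) c]
    rw [Finset.sum_congr rfl fun c _ => h4 c, Finset.sum_add_distrib, ← Finset.sum_mul,
      ← map_sum, AddChar.sum_mulShift (a i) hψ, Finset.sum_ite_eq' univ (0 : F), if_pos (mem_univ _)]
    split_ifs with h
    · push_cast
      simp only [map_sub, map_natCast, map_one]
      ring
    · simp only [Nat.cast_zero, map_zero, zero_mul, zero_add]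
  rw [Finset.sum_congr rfl fun s _ => h1 s, h2, Finset.prod_congr rfl fun i _ => h3 i,
    Finset.prod_ite, Finset.prod_const, Finset.prod_const]

lemma char_sum {ψ : AddChar F ℂ} (hψ : ψ.IsPrimitive) (a : ι → F) (d : ℕ) :
    ∑ s ∈ (univ : Finset (ι → F)).filter (fun s => hammingNorm s = d), ψ (∑ i, a i * s i) =
      ((E ((Fintype.card F : ℝ) - 1) (univ.filter fun i => a i = 0).card
        (univ.filter fun i => ¬ a i = 0).card d : ℝ) : ℂ) := by
  have h := congrArg (fun p : ℂ[X] => p.coeff d) (gen_fun hψ a)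
  rw [Polynomial.finsetSum_coeff] at h
  have h1 : ∀ s : ι → F, (C (ψ (∑ i, a i * s i)) * X ^ hammingNorm s : ℂ[X]).coeff d =
      if hammingNorm s = d then ψ (∑ i, a i * s i) else 0 := by
    intro s
    rw [coeff_C_mul, coeff_X_pow]
    by_cases hs : hammingNorm s = d
    · rw [if_pos hs, if_pos hs.symm, mul_one]
    · rw [if_neg hs, if_neg (fun h => hs h.symm), mul_zero]
  rw [Finset.sum_congr rfl fun s _ => h1 s, ← Finset.sum_filter] at h
  rw [h]
  unfold E
  have h2 : ((1 + C (((Fintype.card F : ℝ) - 1 : ℝ) : ℂ) * X) ^ (univ.filter fun i => a i = 0).card *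
        (1 - X) ^ (univ.filter fun i => ¬ a i = 0).card : ℂ[X]) =
      (((1 + C ((Fintype.card F : ℝ) - 1) * X) ^ (univ.filter fun i => a i = 0).card *
        (1 - X) ^ (univ.filter fun i => ¬ a i = 0).card : ℝ[X])).map Complex.ofRealHom := by
    simp
  rw [h2, coeff_map]
  rfl

lemma char_orth {ψ : AddChar F ℂ} (hψ : ψ.IsPrimitive) (y : ι → F) :
    ∑ a : ι → F, ψ (∑ i, a i * y i) = if y = 0 then ((Fintype.card F : ℂ) ^ Fintype.card ι) else 0 := by
  have h1 : ∀ a : ι → F, ψ (∑ i, a i * y i) = ∏ i, ψ (a i * y i) := by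
    intro a
    rw [addChar_sum]
  have h2 : ∑ a : ι → F, ∏ i, ψ (a i * y i) = ∏ i, ∑ c : F, ψ (c * y i) := by
    rw [Finset.prod_univ_sum, Fintype.piFinset_univ]
  rw [Finset.sum_congr rfl fun a _ => h1 a, h2]
  have h3 : ∀ i, ∑ c : F, ψ (c * y i) = if y i = 0 then (Fintype.card F : ℂ) else 0 := by
    intro i
    rw [AddChar.sum_mulShift (y i) hψ]
    split_ifs <;> simp
  rw [Finset.prod_congr rfl fun i _ => h3 i]
  by_cases hy : y = 0
  · rw [if_pos hy]
    simp [hy, Finset.prod_const, Finset.card_univ]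
  · rw [if_neg hy]
    obtain ⟨i, hi⟩ := Function.ne_iff.mp hy
    exact Finset.prod_eq_zero (mem_univ i) (if_neg hi)

/-- Fourier transform -/
noncomputable def ft (ψ : AddChar F ℂ) (f : (ι → F) → ℝ) (a : ι → F) : ℂ :=
  ∑ x, (f x : ℂ) * ψ (∑ i, a i * x i)

lemma ft_key {ψ : AddChar F ℂ} (hψ : ψ.IsPrimitive) (f : (ι → F) → ℝ) (s : ι → F) :
    ∑ a : ι → F, ((Complex.normSq (ft ψ f a) : ℝ) : ℂ) * ψ (∑ i, a i * s i) =
      (Fintype.card F : ℂ) ^ Fintype.card ι * ((∑ x, f x * f (x + s) : ℝ) : ℂ) := by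
  have h1 : ∀ a : ι → F, ((Complex.normSq (ft ψ f a) : ℝ) : ℂ) * ψ (∑ i, a i * s i) =
      ∑ x, ∑ y, (f x : ℂ) * (f y : ℂ) * ψ (∑ i, a i * (x + s - y) i) := by
    intro a
    rw [← Complex.mul_conj]
    have h2 : (starRingEnd ℂ) (ft ψ f a) = ∑ y, (f y : ℂ) * ψ (-∑ i, a i * y i) := by
      unfold ft
      rw [map_sum]
      refine Finset.sum_congr rfl fun y _ => ?_
      rw [map_mul, Complex.conj_ofReal, AddChar.map_neg_eq_conj]
    rw [h2, ft, Finset.sum_mul_sum, Finset.sum_mul]
    refine Finset.sum_congr rfl fun x _ => ?_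
    rw [Finset.sum_mul]
    refine Finset.sum_congr rfl fun y _ => ?_
    have h3 : ∑ i, a i * (x + s - y) i = ∑ i, a i * x i + -(∑ i, a i * y i) + ∑ i, a i * s i := by
      rw [← Finset.sum_neg_distrib, ← Finset.sum_add_distrib, ← Finset.sum_add_distrib]
      refine Finset.sum_congr rfl fun i _ => ?_
      simp only [Pi.add_apply, Pi.sub_apply]
      ring
    rw [h3, AddChar.map_add_eq_mul, AddChar.map_add_eq_mul]
    ring
  rw [Finset.sum_congr rfl fun a _ => h1 a, Finset.sum_comm]
  have h4 : ∀ x : ι → F, ∑ a : ι → F, ∑ y, (f x : ℂ) * (f y : ℂ) * ψ (∑ i, a i * (x + s - y) i) =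
      (Fintype.card F : ℂ) ^ Fintype.card ι * ((f x * f (x + s) : ℝ) : ℂ) := by
    intro x
    rw [Finset.sum_comm]
    have h5 : ∀ y : ι → F, ∑ a : ι → F, (f x : ℂ) * (f y : ℂ) * ψ (∑ i, a i * (x + s - y) i) =
        if y = x + s then (Fintype.card F : ℂ) ^ Fintype.card ι * ((f x * f (x + s) : ℝ) : ℂ)
          else 0 := by
      intro y
      rw [← Finset.mul_sum, char_orth hψ]
      by_cases hy : y = x + s
      · rw [if_pos hy, if_pos (by rw [hy, sub_self]), hy]
        push_cast
        ring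
      · rw [if_neg hy, if_neg (fun h => hy (sub_eq_zero.mp h).symm), mul_zero]
    rw [Finset.sum_congr rfl fun y _ => h5 y, Finset.sum_ite_eq' univ (x + s), if_pos (mem_univ _)]
  rw [Finset.sum_congr rfl fun x _ => h4 x, ← Finset.mul_sum]
  push_cast
  rfl

/-- the Hoffman type inequality for the distance `d` graph of the Hamming scheme -/
theorem hamming_ineq (f : (ι → F) → ℝ) (d : ℕ) (hd : 1 ≤ d) {ψ : AddChar F ℂ}
    (hψ : ψ.IsPrimitive)
    (hk : (Fintype.card ι : ℝ) * d ≤ (Fintype.card F : ℝ) - 1) :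
    ((Fintype.card ι).choose d : ℝ) * ((Fintype.card F : ℝ) - 1) ^ d * (∑ x, f x) ^ 2 ≤
      (Fintype.card F : ℝ) ^ Fintype.card ι *
        (∑ s ∈ (univ : Finset (ι → F)).filter (fun s => hammingNorm s = d), ∑ x, f x * f (x + s) +
          (Fintype.card ι : ℝ) * ((Fintype.card F : ℝ) - 1) ^ (d - 1) * ∑ x, f x ^ 2) := by
  set q : ℝ := (Fintype.card F : ℝ) with hq
  set k := Fintype.card ι with hkk
  set P : (ι → F) → ℝ := fun a => Complex.normSq (ft ψ f a) with hP
  set e : (ι → F) → ℝ := fun a => E (q - 1) (univ.filter fun i => a i = 0).card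
        (univ.filter fun i => ¬ a i = 0).card d with he
  -- Parseval
  have hpars : ∑ a, P a = q ^ k * ∑ x, f x ^ 2 := by
    have h := ft_key hψ f 0
    have h1 : (∑ a, P a : ℝ) = ((∑ a, P a : ℝ) : ℂ).re := by simp
    have h2 : ((∑ a, P a : ℝ) : ℂ) = ((q ^ k * ∑ x, f x ^ 2 : ℝ) : ℂ) := by
      push_cast
      simp only [Pi.zero_apply, mul_zero, Finset.sum_const_zero, AddChar.map_zero_eq_one, mul_one,
        add_zero] at h
      rw [h]
      push_cast
      congr 1
      refine Finset.sum_congr rfl fun x _ => ?_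
      ring
    exact_mod_cast h2
  have hsum : ∑ a, P a * e a = q ^ k *
      ∑ s ∈ (univ : Finset (ι → F)).filter (fun s => hammingNorm s = d), ∑ x, f x * f (x + s) := by
    have h2 : ((∑ a, P a * e a : ℝ) : ℂ) = ((q ^ k *
      ∑ s ∈ (univ : Finset (ι → F)).filter (fun s => hammingNorm s = d),
        ∑ x, f x * f (x + s) : ℝ) : ℂ) := by
      push_cast
      have h3 : ∀ a : ι → F, ((P a : ℝ) : ℂ) * ((e a : ℝ) : ℂ) =
          ∑ s ∈ (univ : Finset (ι → F)).filter (fun s => hammingNorm s = d),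
            ((P a : ℝ) : ℂ) * ψ (∑ i, a i * s i) := by
        intro a
        rw [← Finset.mul_sum, char_sum hψ a d]
      rw [Finset.sum_congr rfl fun a _ => h3 a, Finset.sum_comm, Finset.mul_sum]
      refine Finset.sum_congr rfl fun s _ => ?_
      rw [ft_key hψ f s]
      push_cast
      rfl
    exact_mod_cast h2
  have hP0 : P 0 = (∑ x, f x) ^ 2 := by
    have : ft ψ f 0 = ((∑ x, f x : ℝ) : ℂ) := by
      unfold ft
      push_cast
      refine Finset.sum_congr rfl fun x _ => ?_
      simp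
    simp only [hP]
    rw [this, Complex.normSq_ofReal]
    ring
  have he0 : e 0 = (k.choose d : ℝ) * (q - 1) ^ d := by
    simp only [he, Pi.zero_apply, Finset.filter_true, not_true_eq_false, Finset.filter_false,
      Finset.card_empty, Finset.card_univ]
    rw [E_zero_w]
  have hPnn : ∀ a, 0 ≤ P a := fun a => Complex.normSq_nonneg _
  have hlow : ∀ a, 0 ≤ e a + k * (q - 1) ^ (d - 1) := by
    intro a
    have h := E_lower (Q := q - 1) (univ.filter fun i => a i = 0).card
        (univ.filter fun i => ¬ a i = 0).card k d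
        (by rw [Finset.card_filter_add_card_filter_not, Finset.card_univ]) hd hk
    simp only [he]
    linarith
  have hmain : P 0 * (e 0 + k * (q - 1) ^ (d - 1)) ≤ ∑ a, P a * (e a + k * (q - 1) ^ (d - 1)) :=
    Finset.single_le_sum (f := fun a => P a * (e a + k * (q - 1) ^ (d - 1)))
      (fun a _ => mul_nonneg (hPnn a) (hlow a)) (mem_univ 0)
  have hexp : ∑ a, P a * (e a + k * (q - 1) ^ (d - 1)) =
      ∑ a, P a * e a + (k * (q - 1) ^ (d - 1)) * ∑ a, P a := by
    rw [Finset.mul_sum, ← Finset.sum_add_distrib]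
    refine Finset.sum_congr rfl fun a _ => ?_
    ring
  have hq1 : 0 ≤ q - 1 := le_trans (by positivity) hk
  have hterm : 0 ≤ P 0 * (k * (q - 1) ^ (d - 1)) :=
    mul_nonneg (hPnn 0) (by positivity)
  rw [hexp, hpars, hsum] at hmain
  rw [← he0, ← hP0]
  nlinarith [hmain, hterm]

end characters

end Pool.Agent.helper52.SP
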