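import Mathlib

/-!
# Containers (Kleitman and Winston) and random partitions
-/

namespace Pool.Agent.helper52.SP

open Finset

variable {V : Type*} [Fintype V] [DecidableEq V]

omit [Fintype V] in
/-- the container lemma of Kleitman and Winston; `N x` is the set of neighbours of `x` -/
theorem container (N : V → Finset V) {R β : ℝ} (hβ1 : β ≤ 1) (hR : 0 < R)
    (hss : ∀ U : Finset V, R ≤ U.card → β * (U.card : ℝ) ^ 2 ≤ ∑ x ∈ U, ((U ∩ N x).card : ℝ)) :
    ∀ (m n : ℕ) (U : Finset V), U.card ≤ m → ∃ C : Finset V → Finset V,
      (∀ S, ((C S).card : ℝ) ≤ max R ((1 - β) ^ n * U.card)) ∧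
      ∀ I ⊆ U, (∀ x ∈ I, ∀ y ∈ I, y ∉ N x) → ∃ S ⊆ I, S.card ≤ n ∧ I ⊆ S ∪ C S := by
  intro m
  induction m with
  | zero =>
    intro n U hU
    have hU0 : U = ∅ := Finset.card_eq_zero.mp (by omega)
    subst hU0
    refine ⟨fun _ => ∅, fun S => ?_, fun I hI _ => ⟨∅, by simp, by simp, by simpa using hI⟩⟩
    simp [hR.le]
  | succ m ih =>
    intro n U hU
    rcases Nat.eq_zero_or_pos n with hn | hn
    · subst hn
      refine ⟨fun _ => U, fun S => ?_, fun I hI _ => ⟨∅, by simp, by simp, by simpa using hI⟩⟩
      rw [pow_zero, one_mul]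
      exact le_max_right _ _
    obtain ⟨n, rfl⟩ : ∃ n', n = n' + 1 := ⟨n - 1, by omega⟩
    rcases lt_or_ge (U.card : ℝ) R with hUR | hUR
    · exact ⟨fun _ => U, fun S => (le_of_lt hUR).trans (le_max_left _ _),
        fun I hI _ => ⟨∅, by simp, by simp, by simpa using hI⟩⟩
    have hUpos : (0 : ℝ) < U.card := lt_of_lt_of_le hR hUR
    have hUne : U.Nonempty := by
      rw [← Finset.card_pos]
      exact_mod_cast hUpos
    obtain ⟨x, hxU, hx⟩ : ∃ x ∈ U, β * (U.card : ℝ) ≤ ((U ∩ N x).card : ℝ) := by
      apply Finset.exists_le_of_sum_le hUne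
      rw [Finset.sum_const, nsmul_eq_mul]
      refine le_trans (le_of_eq ?_) (hss U hUR)
      ring
    have hc1 : (U.erase x).card ≤ m := by
      rw [Finset.card_erase_of_mem hxU]
      omega
    have hc2 : ((U.erase x) \ N x).card ≤ m := (Finset.card_le_card sdiff_subset).trans hc1
    obtain ⟨C1, hC1, hI1⟩ := ih (n + 1) (U.erase x) hc1
    obtain ⟨C2, hC2, hI2⟩ := ih n ((U.erase x) \ N x) hc2
    refine ⟨fun S => if x ∈ S then C2 (S.erase x) else C1 S, ?_, ?_⟩
    · intro S
      dsimp only
      split_ifs with hxS
      · refine (hC2 _).trans (max_le_max le_rfl ?_)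
        rw [pow_succ, mul_assoc]
        refine mul_le_mul_of_nonneg_left ?_ (pow_nonneg (by linarith) n)
        have h1 : ((U.erase x) \ N x).card + (U ∩ N x).card ≤ U.card := by
          have h2 : ((U.erase x) \ N x).card ≤ (U \ N x).card :=
            Finset.card_le_card (sdiff_subset_sdiff (Finset.erase_subset _ _) le_rfl)
          have h3 := Finset.card_sdiff_add_card_inter U (N x)
          omega
        have h2 : (((U.erase x) \ N x).card : ℝ) + (U ∩ N x).card ≤ U.card := by exact_mod_cast h1
        linarith
      · refine (hC1 _).trans (max_le_max le_rfl ?_)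
        refine mul_le_mul_of_nonneg_left ?_ (pow_nonneg (by linarith) _)
        have : (U.erase x).card ≤ U.card := Finset.card_le_card (Finset.erase_subset _ _)
        exact_mod_cast this
    · intro I hI hind
      by_cases hxI : x ∈ I
      · obtain ⟨S, hS, hSc, hIS⟩ := hI2 (I.erase x) (by
            intro y hy
            rw [mem_erase] at hy
            rw [mem_sdiff, mem_erase]
            exact ⟨⟨hy.1, hI hy.2⟩, hind x hxI y hy.2⟩)
          (fun y hy z hz => hind y (Finset.mem_of_mem_erase hy) z (Finset.mem_of_mem_erase hz))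
        have hxS : x ∉ S := fun h => (Finset.notMem_erase x I) (hS h)
        refine ⟨insert x S, ?_, ?_, ?_⟩
        · intro y hy
          rcases Finset.mem_insert.mp hy with rfl | hy
          · exact hxI
          · exact Finset.mem_of_mem_erase (hS hy)
        · rw [Finset.card_insert_of_notMem hxS]
          omega
        · dsimp only
          rw [if_pos (Finset.mem_insert_self x S), Finset.erase_insert hxS]
          intro y hy
          by_cases hyx : y = x
          · subst hyx
            simp
          · have := hIS (Finset.mem_erase.mpr ⟨hyx, hy⟩)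
            rw [mem_union] at this ⊢
            rcases this with h | h
            · exact Or.inl (Finset.mem_insert_of_mem h)
            · exact Or.inr h
      · obtain ⟨S, hS, hSc, hIS⟩ := hI1 I (by
            intro y hy
            rw [mem_erase]
            exact ⟨fun h => hxI (h ▸ hy), hI hy⟩) hind
        have hxS : x ∉ S := fun h => hxI (hS h)
        refine ⟨S, hS, hSc, ?_⟩
        dsimp only
        rw [if_neg hxS]
        exact hIS

/-- the number of maps constant on a set -/
lemma count_const (L : ℕ) (T : Finset V) (j : Fin L) :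
    ((univ : Finset (V → Fin L)).filter fun c => ∀ x ∈ T, c x = j).card =
      L ^ (Fintype.card V - T.card) := by
  classical
  have h1 : ((univ : Finset (V → Fin L)).filter fun c => ∀ x ∈ T, c x = j) =
      Fintype.piFinset (fun x => if x ∈ T then {j} else univ) := by
    ext c
    simp only [mem_filter, mem_univ, true_and, Fintype.mem_piFinset]
    constructor
    · intro h x
      by_cases hx : x ∈ T
      · rw [if_pos hx, mem_singleton]
        exact h x hx
      · rw [if_neg hx]
        exact mem_univ _
    · intro h x hx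
      have := h x
      rw [if_pos hx, mem_singleton] at this
      exact this
  rw [h1, Fintype.card_piFinset]
  have h2 : ∀ x, (if x ∈ T then ({j} : Finset (Fin L)) else univ).card = if x ∈ T then 1 else L := by
    intro x
    split_ifs <;> simp
  rw [Finset.prod_congr rfl fun x _ => h2 x, Finset.prod_ite, Finset.prod_const_one, one_mul,
    Finset.prod_const]
  congr 1
  have h3 : (univ.filter fun x => x ∉ T) = univ \ T := by
    ext x
    simp
  rw [h3, Finset.card_sdiff_of_subset (Finset.subset_univ T), Finset.card_univ]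

lemma count_const' (L : ℕ) (T : Finset V) :
    ((univ : Finset (V → Fin L)).filter fun c => ∃ j, ∀ x ∈ T, c x = j).card ≤
      L * L ^ (Fintype.card V - T.card) := by
  classical
  have h1 : ((univ : Finset (V → Fin L)).filter fun c => ∃ j, ∀ x ∈ T, c x = j) ⊆
      (univ : Finset (Fin L)).biUnion fun j =>
        (univ : Finset (V → Fin L)).filter fun c => ∀ x ∈ T, c x = j := by
    intro c hc
    rw [mem_filter] at hc
    obtain ⟨-, j, hj⟩ := hc
    rw [mem_biUnion]
    exact ⟨j, mem_univ _, by rw [mem_filter]; exact ⟨mem_univ _, hj⟩⟩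
  refine (Finset.card_le_card h1).trans (Finset.card_biUnion_le.trans ?_)
  rw [Finset.sum_congr rfl fun j _ => count_const L T j]
  simp

/-- the number of small sets -/
lemma count_small (n : ℕ) :
    ((univ : Finset (Finset V)).filter fun S => S.card ≤ n).card ≤ (Fintype.card V + 1) ^ n := by
  classical
  have h1 : ((univ : Finset (Finset V)).filter fun S => S.card ≤ n) ⊆
      (univ : Finset (Fin n → Option V)).image
        fun f => univ.filter fun x => ∃ i, f i = some x := by
    intro S hS
    rw [mem_filter] at hS
    rw [mem_image]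
    have hcard : S.card ≤ (univ : Finset (Fin n)).card := by simpa using hS.2
    refine ⟨fun i => if h : (i : ℕ) < S.card then some (S.equivFin.symm ⟨i, h⟩ : V) else none,
      mem_univ _, ?_⟩
    ext x
    simp only [mem_filter, mem_univ, true_and]
    constructor
    · rintro ⟨i, hi⟩
      by_cases h : (i : ℕ) < S.card
      · rw [dif_pos h, Option.some.injEq] at hi
        rw [← hi]
        exact (S.equivFin.symm ⟨i, h⟩).2
      · rw [dif_neg h] at hi
        exact absurd hi (by simp)
    · intro hx
      have hlt := (S.equivFin ⟨x, hx⟩).2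
      refine ⟨⟨S.equivFin ⟨x, hx⟩, lt_of_lt_of_le hlt hS.2⟩, ?_⟩
      rw [dif_pos hlt]
      simp
  refine (Finset.card_le_card h1).trans (Finset.card_image_le.trans ?_)
  simp

/-- **random partition**: a large set without conflicts whose independent sets are small -/
theorem random_part (N B : V → Finset V) (hV : 0 < Fintype.card V) {M L r t n : ℕ}
    (hB : ∀ x, (B x).card ≤ M) (hBx : ∀ x, x ∉ B x) (hL1 : 1 ≤ L) (hL : 4 * M ≤ L)
    (C : Finset V → Finset V) (hC : ∀ S, (C S).card ≤ r)
    (hI : ∀ I : Finset V, (∀ x ∈ I, ∀ y ∈ I, y ∉ N x) → ∃ S ⊆ I, S.card ≤ n ∧ I ⊆ S ∪ C S)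

    (hcount : 4 * ((Fintype.card V + 1) ^ n * r.choose t * L) ≤ L ^ t) :
    ∃ X : Finset V, (∀ x ∈ X, ∀ y ∈ X, y ∉ B x) ∧ Fintype.card V ≤ 2 * L * X.card ∧
      ∀ I ⊆ X, (∀ x ∈ I, ∀ y ∈ I, y ∉ N x) → I.card < n + t := by
  classical
  set v := Fintype.card V with hv
  -- conflicts
  let conf : (V → Fin L) → ℕ := fun c => ∑ x, ((B x).filter fun y => c y = c x).card
  let P : Finset (Σ _ : Finset V, Finset V) :=
    ((univ : Finset (Finset V)).filter fun S => S.card ≤ n).sigma fun S => (C S).powersetCard t
  let bad : (V → Fin L) → ℕ := fun c => (P.filter fun p => ∃ j, ∀ x ∈ p.2, c x = j).card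
  have hLv : 0 < L ^ v := pow_pos (by omega) v
  have hconf : 4 * ∑ c, conf c ≤ L ^ v * v := by
    have h1 : ∑ c, conf c ≤ ∑ _x : V, M * L ^ (v - 1) := by
      simp only [conf]
      rw [Finset.sum_comm]
      refine Finset.sum_le_sum fun x _ => ?_
      have h2 : ∑ c : V → Fin L, ((B x).filter fun y => c y = c x).card =
          ∑ y ∈ B x, ((univ : Finset (V → Fin L)).filter fun c => c y = c x).card := by
        simp only [Finset.card_filter]
        rw [Finset.sum_comm]
      rw [h2]
      have h3 : ∀ y ∈ B x, ((univ : Finset (V → Fin L)).filter fun c => c y = c x).card ≤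
          L ^ (v - 1) := by
        intro y hy
        have hyx : y ≠ x := fun h => hBx x (h ▸ hy)
        have h4 : ((univ : Finset (V → Fin L)).filter fun c => c y = c x) ⊆
            (univ : Finset (V → Fin L)).filter fun c => ∃ j, ∀ z ∈ ({y, x} : Finset V), c z = j := by
          intro c hc
          rw [mem_filter] at hc ⊢
          refine ⟨mem_univ _, c x, ?_⟩
          intro z hz
          rw [mem_insert, mem_singleton] at hz
          rcases hz with rfl | rfl
          · exact hc.2
          · rfl
        refine (Finset.card_le_card h4).trans ((count_const' L _).trans (le_of_eq ?_))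
        rw [Finset.card_pair hyx, ← hv, ← pow_succ']
        congr 1
        have h5 : 2 ≤ v := by
          rw [hv, ← Finset.card_univ, ← Finset.card_pair hyx]
          exact Finset.card_le_card (Finset.subset_univ _)
        omega
      calc ∑ y ∈ B x, ((univ : Finset (V → Fin L)).filter fun c => c y = c x).card
          ≤ ∑ _y ∈ B x, L ^ (v - 1) := Finset.sum_le_sum h3
        _ = (B x).card * L ^ (v - 1) := by rw [Finset.sum_const, smul_eq_mul]
        _ ≤ M * L ^ (v - 1) := Nat.mul_le_mul_right _ (hB x)
    rw [Finset.sum_const, Finset.card_univ, smul_eq_mul, ← hv] at h1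
    calc 4 * ∑ c, conf c ≤ 4 * (v * (M * L ^ (v - 1))) := Nat.mul_le_mul_left _ h1
      _ = (4 * M) * (v * L ^ (v - 1)) := by ring
      _ ≤ L * (v * L ^ (v - 1)) := Nat.mul_le_mul_right _ hL
      _ = (L * L ^ (v - 1)) * v := by ring
      _ = L ^ v * v := by rw [← pow_succ', Nat.sub_add_cancel hV]
  have hbad : 4 * ∑ c, bad c ≤ L ^ v := by
    have h1 : ∑ c, bad c ≤ ∑ _p ∈ P, L * L ^ (v - t) := by
      simp only [bad]
      have h2 : ∑ c : V → Fin L, (P.filter fun p => ∃ j, ∀ x ∈ p.2, c x = j).card =
          ∑ p ∈ P, ((univ : Finset (V → Fin L)).filter fun c => ∃ j, ∀ x ∈ p.2, c x = j).card := by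
        simp only [Finset.card_filter]
        rw [Finset.sum_comm]
      rw [h2]
      refine Finset.sum_le_sum fun p hp => ?_
      have h3 : p.2.card = t := by
        simp only [P, mem_sigma, mem_powersetCard] at hp
        exact hp.2.2
      rw [← h3, hv]
      exact count_const' L _
    rw [Finset.sum_const, smul_eq_mul] at h1
    have hP : P.card ≤ (v + 1) ^ n * r.choose t := by
      simp only [P]
      rw [Finset.card_sigma]
      calc ∑ S ∈ (univ : Finset (Finset V)).filter (fun S => S.card ≤ n),
            ((C S).powersetCard t).card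
          ≤ ∑ _S ∈ (univ : Finset (Finset V)).filter (fun S => S.card ≤ n), r.choose t := by
            refine Finset.sum_le_sum fun S _ => ?_
            rw [Finset.card_powersetCard]
            exact Nat.choose_le_choose t (hC S)
        _ = ((univ : Finset (Finset V)).filter (fun S => S.card ≤ n)).card * r.choose t := by
            rw [Finset.sum_const, smul_eq_mul]
        _ ≤ (v + 1) ^ n * r.choose t := Nat.mul_le_mul_right _ (count_small n)
    rcases Nat.lt_or_ge v t with htv | htv
    · -- then there are no sets of cardinality `t`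
      have hP0 : P.card = 0 := by
        rw [Finset.card_eq_zero, Finset.eq_empty_iff_forall_notMem]
        intro p hp
        simp only [P, mem_sigma, mem_powersetCard] at hp
        have h4 : p.2.card ≤ v := by
          rw [hv, ← Finset.card_univ]
          exact Finset.card_le_card (Finset.subset_univ _)
        omega
      rw [hP0, zero_mul] at h1
      omega
    · calc 4 * ∑ c, bad c ≤ 4 * (P.card * (L * L ^ (v - t))) := Nat.mul_le_mul_left _ h1
        _ ≤ 4 * (((v + 1) ^ n * r.choose t) * (L * L ^ (v - t))) :=
            Nat.mul_le_mul_left _ (Nat.mul_le_mul_right _ hP)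
        _ = (4 * ((v + 1) ^ n * r.choose t * L)) * L ^ (v - t) := by ring
        _ ≤ L ^ t * L ^ (v - t) := Nat.mul_le_mul_right _ hcount
        _ = L ^ v := by rw [← pow_add, Nat.add_sub_cancel' htv]
  -- a good map
  obtain ⟨c, hc⟩ : ∃ c : V → Fin L, 2 * (conf c + v * bad c) ≤ v := by
    have hcard : (univ : Finset (V → Fin L)).card = L ^ v := by
      simp [hv]
    have hne : (univ : Finset (V → Fin L)).Nonempty := by
      rw [← Finset.card_pos, hcard]
      exact hLv
    obtain ⟨c, -, hc⟩ := Finset.exists_le_of_sum_le (s := (univ : Finset (V → Fin L)))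
      (f := fun c => 2 * (conf c + v * bad c)) (g := fun _ => v) hne (by
        rw [Finset.sum_const, hcard, smul_eq_mul, ← Finset.mul_sum, Finset.sum_add_distrib,
          ← Finset.mul_sum]
        nlinarith [hconf, Nat.mul_le_mul_left v hbad])
    exact ⟨c, hc⟩
  have hbad0 : bad c = 0 := by
    by_contra h
    have h1 : v * 1 ≤ v * bad c := Nat.mul_le_mul_left v (by omega)
    omega
  have hconf2 : 2 * conf c ≤ v := by
    rw [hbad0] at hc
    simpa using hc
  -- the classes
  let X : Fin L → Finset V := fun j => univ.filter fun x => c x = j ∧ ∀ y ∈ B x, c y ≠ c x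
  have hsumX : v ≤ 2 * ∑ j, (X j).card := by
    have h1 : ∑ j, (X j).card = (univ.filter fun x => ∀ y ∈ B x, c y ≠ c x).card := by
      rw [Finset.card_eq_sum_card_fiberwise (f := c) (t := univ) (fun x _ => mem_univ _)]
      refine Finset.sum_congr rfl fun j _ => ?_
      congr 1
      ext x
      simp only [X, mem_filter, mem_univ, true_and]
      tauto
    have h2 : (univ.filter fun x => ¬ ∀ y ∈ B x, c y ≠ c x).card ≤ conf c := by
      rw [Finset.card_filter]
      simp only [conf]
      refine Finset.sum_le_sum fun x _ => ?_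
      by_cases h : ∀ y ∈ B x, c y ≠ c x
      · rw [if_neg (by simpa using h)]
        exact Nat.zero_le _
      · rw [if_pos h]
        push Not at h
        obtain ⟨y, hy, hyc⟩ := h
        rw [Nat.one_le_iff_ne_zero, Finset.card_ne_zero]
        exact ⟨y, mem_filter.mpr ⟨hy, hyc⟩⟩
    have h3 := Finset.card_filter_add_card_filter_not (s := (univ : Finset V))
      (fun x => ∀ y ∈ B x, c y ≠ c x)
    rw [Finset.card_univ, ← hv] at h3
    rw [h1]
    omega
  obtain ⟨j, hj⟩ : ∃ j, v ≤ 2 * L * (X j).card := by
    by_contra h
    push Not at h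
    have hne : (univ : Finset (Fin L)).Nonempty := ⟨⟨0, by omega⟩, mem_univ _⟩
    have h1 : ∑ j, 2 * L * (X j).card < ∑ _j : Fin L, v := Finset.sum_lt_sum_of_nonempty hne
      fun j _ => h j
    rw [← Finset.mul_sum, Finset.sum_const, Finset.card_univ, Fintype.card_fin, smul_eq_mul] at h1
    have h2 : L * v ≤ L * (2 * ∑ j, (X j).card) := Nat.mul_le_mul_left L hsumX
    have h3 : 2 * L * ∑ j, (X j).card = L * (2 * ∑ j, (X j).card) := by ring
    omega
  refine ⟨X j, ?_, hj, ?_⟩
  · intro x hx y hy hxy
    simp only [X, mem_filter, mem_univ, true_and] at hx hy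
    exact hx.2 y hxy (hy.1.trans hx.1.symm)
  · intro I hIX hind
    by_contra hbig
    push Not at hbig
    obtain ⟨S, hSI, hSn, hIS⟩ := hI I hind
    have h1 : t ≤ (I \ S).card := by
      have := Finset.le_card_sdiff S I
      omega
    obtain ⟨T, hT, hTc⟩ := Finset.exists_subset_card_eq h1
    have h2 : (⟨S, T⟩ : Σ _ : Finset V, Finset V) ∈
        P.filter fun p => ∃ j, ∀ x ∈ p.2, c x = j := by
      simp only [P, mem_filter, mem_sigma, mem_powersetCard, mem_univ, true_and]
      refine ⟨⟨hSn, ?_, hTc⟩, j, ?_⟩
      · intro x hx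
        have h3 := hT hx
        rw [mem_sdiff] at h3
        have h4 := hIS h3.1
        rw [mem_union] at h4
        exact h4.resolve_left h3.2
      · intro x hx
        have h3 := hT hx
        rw [mem_sdiff] at h3
        have h4 := hIX h3.1
        simp only [X, mem_filter, mem_univ, true_and] at h4
        exact h4.1
    have h3 : (P.filter fun p => ∃ j, ∀ x ∈ p.2, c x = j).card = 0 := hbad0
    rw [Finset.card_eq_zero] at h3
    rw [h3] at h2
    exact Finset.notMem_empty _ h2

end Pool.Agent.helper52.SP
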