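import Pool.Agent.helper52.SP.Param

/-!
# Choice of the parameters
-/

namespace Pool.Agent.helper52.SP

open Finset Pool.Agent.helper70.Sachs

/-- a lower bound for binomial coefficients -/
lemma choose_lower {n r : ℕ} (hr : 2 * r ≤ n + 2) : ((n : ℝ) / (2 * r)) ^ r ≤ n.choose r := by
  rcases Nat.eq_zero_or_pos r with h0 | h0
  · subst h0
    simp
  have h1 : (((n + 1 - r : ℕ) : ℝ) ^ r) / (r.factorial : ℝ) ≤ (n.choose r : ℝ) :=
    Nat.pow_le_choose r n
  refine le_trans ?_ h1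
  have h2 : (n : ℝ) / 2 ≤ ((n + 1 - r : ℕ) : ℝ) := by
    rw [Nat.cast_sub (by omega)]
    have h3 : (2 * r : ℝ) ≤ n + 2 := by exact_mod_cast hr
    push_cast
    linarith
  have hrr : (0 : ℝ) < r := by exact_mod_cast h0
  have h3 : (r.factorial : ℝ) ≤ (r : ℝ) ^ r := by exact_mod_cast Nat.factorial_le_pow r
  have h4 : ((n : ℝ) / (2 * r)) ^ r = ((n : ℝ) / 2) ^ r / (r : ℝ) ^ r := by
    rw [← div_pow]
    congr 1
    field_simp
  rw [h4]
  refine div_le_div₀ (by positivity) (pow_le_pow_left₀ (by positivity) h2 r) (by positivity) h3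

/-- the lower bound for `n ≥ q³` -/
theorem main_q {q d n c : ℕ} (hq : q.Prime) (hd : 1 ≤ d) (hdq : 64 * (12 * d) ^ (6 * d) ≤ q)
    (hn : q ^ 3 ≤ n) (hc : chi n ≤ c) : q ^ d ≤ 625 * c ^ 2 := by
  have : Fact q.Prime := ⟨hq⟩
  set κ := 6 * d with hκ
  set k := (q - 1) / d with hk
  have hbase : 12 * d ≤ (12 * d) ^ (6 * d) := Nat.le_self_pow (by omega) _
  have hbase4 : (12 * d) ^ 4 ≤ (12 * d) ^ (6 * d) := Nat.pow_le_pow_right (by omega) (by omega)
  -- simple consequences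
  have hq4 : 64 * (12 * d) ^ 4 ≤ q := (Nat.mul_le_mul_left _ hbase4).trans hdq
  have hd4 : 16 * d ^ 4 ≤ q := by
    refine le_trans ?_ hq4
    rw [mul_pow]
    nlinarith [Nat.zero_le (d ^ 4)]
  have hdd : d ≤ d ^ 2 := Nat.le_self_pow (by norm_num) d
  have hdd4 : d ^ 2 ≤ d ^ 4 := Nat.pow_le_pow_right hd (by norm_num)
  have h1d : 1 ≤ d ^ 4 := Nat.one_le_pow _ _ hd
  have hkd : k * d + 1 ≤ q := by
    have h1 : k * d ≤ q - 1 := Nat.div_mul_le_self _ _
    have h2 := hq.two_le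
    omega
  have hkd2 : q ≤ (k + 1) * d := by
    have h1 : q - 1 < (k + 1) * d := by
      rw [hk]
      exact Nat.lt_mul_of_div_lt (Nat.lt_succ_self _) (by omega)
    omega
  have hkq : k ≤ q := by
    have h1 : k * 1 ≤ k * d := Nat.mul_le_mul_left k hd
    omega
  -- real versions
  have hdr : (1 : ℝ) ≤ d := by exact_mod_cast hd
  have hqr4 : 16 * (d : ℝ) ^ 4 ≤ q := by exact_mod_cast hd4
  have hq64 : (64 : ℝ) ≤ q := by
    have h1 : 64 * 1 ≤ 64 * (12 * d) ^ 4 := Nat.mul_le_mul_left _ (Nat.one_le_pow _ _ (by omega))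
    exact_mod_cast (h1.trans hq4)
  have hqpos : (0 : ℝ) < q := by linarith
  set s : ℝ := Real.sqrt q with hs
  have hss : s * s = q := Real.mul_self_sqrt hqpos.le
  have hs4 : 4 * (d : ℝ) ^ 2 ≤ s := by
    apply Real.le_sqrt_of_sq_le
    nlinarith
  have hspos : 0 < s := Real.sqrt_pos.mpr hqpos
  have hkr : (q : ℝ) / (4 * d ^ 2) ≤ (k : ℝ) / (2 * d) := by
    have h1 : (q : ℝ) ≤ (k + 1) * d := by exact_mod_cast hkd2
    have h2 : (2 * d : ℝ) ≤ q := by nlinarith [sq_nonneg ((d : ℝ) ^ 2 - 1), hqr4]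
    rw [div_le_div_iff₀ (by positivity) (by positivity)]
    nlinarith
  have hks : s ≤ (k : ℝ) / (2 * d) := by
    refine le_trans ?_ hkr
    rw [le_div_iff₀ (by positivity)]
    nlinarith
  have hd0 : (0 : ℝ) < d := by linarith
  have hkge : 2 * (d : ℝ) * s ≤ k := by
    rw [le_div_iff₀ (by positivity)] at hks
    linarith
  have hdk' : (2 * d : ℝ) ≤ k := by
    have h1 : (1 : ℝ) ≤ s := by nlinarith
    nlinarith
  have hdk2 : 2 * d ≤ k := by exact_mod_cast hdk'
  have hdk : d ≤ k := by omega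
  have hkpos : (0 : ℝ) < k := by
    have : 0 < k := by omega
    exact_mod_cast this
  have hchoose : s ^ d ≤ (k.choose d : ℝ) :=
    (pow_le_pow_left₀ hspos.le hks d).trans (choose_lower (by omega))
  -- the number `K`
  set K : ℝ := (k.choose d : ℝ) * ((q : ℝ) - 1) / k with hK
  have hKk : K * k = (k.choose d : ℝ) * ((q : ℝ) - 1) := by
    rw [hK]
    field_simp
  have hchoosepos : (0 : ℝ) < k.choose d := by
    have := Nat.choose_pos hdk
    exact_mod_cast this
  have hkdr : (k : ℝ) * d ≤ (q : ℝ) - 1 := by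
    have h1 : ((k * d + 1 : ℕ) : ℝ) ≤ q := by exact_mod_cast hkd
    push_cast at h1
    linarith
  have hKlow : s ^ d ≤ K := by
    refine hchoose.trans ?_
    rw [hK, le_div_iff₀ hkpos]
    refine mul_le_mul_of_nonneg_left ?_ hchoosepos.le
    nlinarith
  have hs8 : (8 : ℝ) ≤ s := by
    apply Real.le_sqrt_of_sq_le
    linarith
  have hK2 : 2 ≤ K := by
    refine le_trans ?_ hKlow
    calc (2 : ℝ) ≤ s := by linarith
      _ = s ^ 1 := (pow_one s).symm
      _ ≤ s ^ d := pow_le_pow_right₀ (by linarith) hd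
  have hkqr : (k : ℝ) ≤ q := by exact_mod_cast hkq
  have hKup : K ≤ (q : ℝ) ^ d := by
    rw [hK, div_le_iff₀ hkpos]
    have h1 : (k.choose d : ℝ) ≤ (k : ℝ) ^ d := by exact_mod_cast Nat.choose_le_pow k d
    have h2 : (k : ℝ) ^ d = (k : ℝ) ^ (d - 1) * k := by
      rw [← pow_succ, Nat.sub_add_cancel hd]
    have h3 : (q : ℝ) ^ d = (q : ℝ) ^ (d - 1) * q := by
      rw [← pow_succ, Nat.sub_add_cancel hd]
    calc (k.choose d : ℝ) * ((q : ℝ) - 1) ≤ (k : ℝ) ^ d * q :=
          mul_le_mul h1 (by linarith) (by linarith) (by positivity)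
      _ = (k : ℝ) ^ (d - 1) * q * k := by rw [h2]; ring
      _ ≤ (q : ℝ) ^ (d - 1) * q * k := by
          refine mul_le_mul_of_nonneg_right (mul_le_mul_of_nonneg_right ?_ hqpos.le) hkpos.le
          exact pow_le_pow_left₀ hkpos.le hkqr _
      _ = (q : ℝ) ^ d * k := by rw [h3]
  -- the main inequality
  have hnat : 64 * κ * (12 * d) ^ ((κ - 1) * d) ≤ q ^ (2 * d - 1) := by
    calc 64 * κ * (12 * d) ^ ((κ - 1) * d)
        ≤ 64 * (12 * d) * (12 * d) ^ ((κ - 1) * d) :=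
          Nat.mul_le_mul_right _ (Nat.mul_le_mul_left _ (by omega))
      _ = 64 ^ 1 * (12 * d) ^ ((κ - 1) * d + 1) := by rw [pow_succ]; ring
      _ ≤ 64 ^ d * (12 * d) ^ (6 * d * d) := by
          refine Nat.mul_le_mul (Nat.pow_le_pow_right (by norm_num) hd)
            (Nat.pow_le_pow_right (by omega) ?_)
          rw [hκ]
          have h1 : (6 * d - 1) * d + d = 6 * d * d := by
            have : (6 * d - 1) * d + 1 * d = ((6 * d - 1) + 1) * d := by ring
            rw [show 6 * d - 1 + 1 = 6 * d by omega] at this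
            omega
          omega
      _ = (64 * (12 * d) ^ (6 * d)) ^ d := by rw [mul_pow 64 ((12 * d) ^ (6 * d)) d, ← pow_mul]
      _ ≤ q ^ d := Nat.pow_le_pow_left hdq d
      _ ≤ q ^ (2 * d - 1) := Nat.pow_le_pow_right (by omega) (by omega)
  have hκq : κ ≤ q := by omega
  have hbig : 64 * K ^ 2 * (k.choose (d - 1) * (q ^ κ) ^ (d - 1) : ℕ) * (k * κ * q : ℕ) ≤
      (k.choose d : ℝ) * (q.choose (κ - 1) : ℝ) ^ d := by
    have hA : (0 : ℝ) < (12 * d : ℝ) ^ ((κ - 1) * d) := by positivity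
    -- right side
    have h1 : (q : ℝ) ^ ((κ - 1) * d) ≤
        (12 * d : ℝ) ^ ((κ - 1) * d) * ((k.choose d : ℝ) * (q.choose (κ - 1) : ℝ) ^ d) := by
      have h2 : ((q : ℝ) / (12 * d)) ^ (κ - 1) ≤ q.choose (κ - 1) := by
        refine le_trans ?_ (choose_lower (n := q) (r := κ - 1) (by omega))
        refine pow_le_pow_left₀ (by positivity) ?_ _
        refine div_le_div_of_nonneg_left hqpos.le ?_ ?_
        · have : 0 < κ - 1 := by omega
          have h3 : (0 : ℝ) < (κ - 1 : ℕ) := by exact_mod_cast this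
          positivity
        · have : 2 * (κ - 1) ≤ 12 * d := by omega
          exact_mod_cast this
      have h3 : (1 : ℝ) ≤ k.choose d := by
        have := Nat.choose_pos hdk
        exact_mod_cast this
      have h4 : (((q : ℝ) / (12 * d)) ^ (κ - 1)) ^ d ≤ (q.choose (κ - 1) : ℝ) ^ d :=
        pow_le_pow_left₀ (by positivity) h2 d
      calc (q : ℝ) ^ ((κ - 1) * d)
          = (12 * d : ℝ) ^ ((κ - 1) * d) * (((q : ℝ) / (12 * d)) ^ (κ - 1)) ^ d := by
            rw [← pow_mul, ← mul_pow]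
            congr 1
            field_simp
        _ ≤ (12 * d : ℝ) ^ ((κ - 1) * d) * (1 * (q.choose (κ - 1) : ℝ) ^ d) := by
            rw [one_mul]
            exact mul_le_mul_of_nonneg_left h4 hA.le
        _ ≤ _ := by
            refine mul_le_mul_of_nonneg_left ?_ hA.le
            exact mul_le_mul_of_nonneg_right h3 (by positivity)
    -- left side
    have h2 : 64 * K ^ 2 * (k.choose (d - 1) * (q ^ κ) ^ (d - 1) : ℕ) * (k * κ * q : ℕ) ≤
        64 * κ * (q : ℝ) ^ (2 * d + (d - 1) + κ * (d - 1) + 2) := by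
      have h3 : ((k.choose (d - 1) * (q ^ κ) ^ (d - 1) : ℕ) : ℝ) ≤
          (q : ℝ) ^ (d - 1) * (q : ℝ) ^ (κ * (d - 1)) := by
        have h4 : k.choose (d - 1) * (q ^ κ) ^ (d - 1) ≤ q ^ (d - 1) * q ^ (κ * (d - 1)) := by
          refine Nat.mul_le_mul ((Nat.choose_le_pow k (d - 1)).trans
            (Nat.pow_le_pow_left hkq _)) ?_
          exact le_of_eq (pow_mul q κ (d - 1)).symm
        exact_mod_cast h4
      have h4 : ((k * κ * q : ℕ) : ℝ) ≤ (q : ℝ) * κ * q := by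
        push_cast
        refine mul_le_mul_of_nonneg_right (mul_le_mul_of_nonneg_right hkqr (by positivity))
          hqpos.le
      have h5 : 64 * K ^ 2 ≤ 64 * ((q : ℝ) ^ d) ^ 2 :=
        mul_le_mul_of_nonneg_left (pow_le_pow_left₀ (by linarith) hKup 2) (by norm_num)
      calc 64 * K ^ 2 * (k.choose (d - 1) * (q ^ κ) ^ (d - 1) : ℕ) * (k * κ * q : ℕ)
          ≤ 64 * ((q : ℝ) ^ d) ^ 2 * ((q : ℝ) ^ (d - 1) * (q : ℝ) ^ (κ * (d - 1))) *
            ((q : ℝ) * κ * q) :=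
            mul_le_mul (mul_le_mul h5 h3 (by positivity) (by positivity)) h4 (by positivity)
              (by positivity)
        _ = 64 * κ * (q : ℝ) ^ (2 * d + (d - 1) + κ * (d - 1) + 2) := by
            rw [pow_add, pow_add, pow_add, pow_mul' (q : ℝ) 2 d]
            ring
    have h3 : (κ - 1) * d = 2 * d + (d - 1) + κ * (d - 1) + 2 + (2 * d - 1) := by
      obtain ⟨e, rfl⟩ : ∃ e, d = e + 1 := ⟨d - 1, by omega⟩
      have h4 : κ - 1 = 6 * e + 5 := by omega
      have h5 : κ = 6 * e + 6 := by omega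
      rw [h4, h5, Nat.add_sub_cancel]
      have h6 : 2 * (e + 1) - 1 = 2 * e + 1 := by omega
      rw [h6]
      ring
    have h4 : (12 * d : ℝ) ^ ((κ - 1) * d) *
        (64 * κ * (q : ℝ) ^ (2 * d + (d - 1) + κ * (d - 1) + 2)) ≤ (q : ℝ) ^ ((κ - 1) * d) := by
      have h5 : (64 * κ * (12 * d) ^ ((κ - 1) * d) : ℝ) ≤ (q : ℝ) ^ (2 * d - 1) := by
        exact_mod_cast hnat
      rw [h3, pow_add (q : ℝ) _ (2 * d - 1), ← h3]
      calc (12 * d : ℝ) ^ ((κ - 1) * d) *
            (64 * κ * (q : ℝ) ^ (2 * d + (d - 1) + κ * (d - 1) + 2))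
          = (q : ℝ) ^ (2 * d + (d - 1) + κ * (d - 1) + 2) *
            (64 * κ * (12 * d) ^ ((κ - 1) * d)) := by ring
        _ ≤ _ := mul_le_mul_of_nonneg_left h5 (by positivity)
    have h5 := (mul_le_mul_of_nonneg_left h2 hA.le).trans (h4.trans h1)
    exact le_of_mul_le_mul_left h5 hA
  have hkn : k * q ^ 2 ≤ n := by
    refine le_trans ?_ hn
    calc k * q ^ 2 ≤ q * q ^ 2 := Nat.mul_le_mul_right _ hkq
      _ = q ^ 3 := by ring
  have hres := param (q := q) (κ := κ) (k := k) (d := d) hd hdk hkd (by omega) hκq hkn hc hKk hK2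
    hbig
  have hfin : s ^ d ≤ 25 * c := hKlow.trans hres
  have h1 : (s ^ d) ^ 2 ≤ (25 * (c : ℝ)) ^ 2 := pow_le_pow_left₀ (by positivity) hfin 2
  have h2 : (s ^ d) ^ 2 = (q : ℝ) ^ d := by
    rw [← pow_mul, mul_comm d 2, pow_mul, sq, hss]
  rw [h2] at h1
  have h3 : (q : ℝ) ^ d ≤ 625 * (c : ℝ) ^ 2 := by
    refine h1.trans (le_of_eq ?_)
    ring
  exact_mod_cast h3

end Pool.Agent.helper52.SP
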