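import Pool.Agent.helper3.SP.SpecPP

set_option autoImplicit false

/-!
# Module PP11 of project sp: probability, locality and monotonicity of a list of loops
-/

namespace TP

open DP MeasureTheory

theorem PP11_prob : IsProbabilityMeasure P1 := by
  unfold P1
  infer_instance

theorem PP11 (hRLL : RLL_stmt) (hTFK : TFK_stmt) : PP11_stmt := by
  intro c₀ k Ls h0
  induction Ls with
  | nil =>
    intro _
    have e : (Ev fun c => Lps c k []) = Set.univ := by
      ext b
      simp [Ev, Lps]
    rw [e]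
    refine ⟨?_, Loc.univ _, Mon.univ k⟩
    have := PP11_prob
    unfold Pr
    simp
  | cons q Ls ih =>
    intro hc
    obtain ⟨h1, h2, h3⟩ := ih fun q' hq' => hc q' (List.mem_cons_of_mem _ hq')
    have e : (Ev fun c => Lps c k (q :: Ls)) =
        (Ev fun c => ∃ S, Loop c k q.1 q.2 S) ∩ (Ev fun c => Lps c k Ls) := by
      ext b
      simp only [Ev, Lps, Set.mem_ofPred_eq, Set.mem_inter_iff, List.mem_cons, forall_eq_or_imp]
    obtain ⟨h4, h5⟩ := hRLL k q.1 q.2
    have hq := hc q List.mem_cons_self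
    rw [e]
    refine ⟨?_, ?_, h5.inter h3⟩
    · rw [List.length_cons, pow_succ']
      calc c₀ * c₀ ^ Ls.length ≤
          Pr (Ev fun c => ∃ S, Loop c k q.1 q.2 S) * Pr (Ev fun c => Lps c k Ls) :=
            mul_le_mul hq h1 (by positivity) (le_trans h0 hq)
        _ ≤ _ := hTFK k _ _ _ _ h4 h2 h5 h3
    · refine (h4.inter h2).mono ?_
      rintro v (hv | ⟨q', hq', hv⟩)
      · exact ⟨q, List.mem_cons_self, hv.2⟩
      · exact ⟨q', List.mem_cons_of_mem _ hq', hv⟩

end TP
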