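import Pool.Agent.helper3.SP.SpecPP

set_option autoImplicit false

/-!
# Module PP25 of project sp: the two tracks from `x` to the left of the outer annulus
-/

namespace TP

open DP MeasureTheory

/-- Where the wire is. -/
def PP25_Z (x : V) (ℓ P L : ℤ) (s : ℤ) (v : V) : Prop :=
  (29 * ℓ < x.1 - v.1 ∧ x.1 - v.1 < 64 * P + 3 * ℓ ∧
    13 * ℓ < s * (v.2 - x.2) ∧ s * (v.2 - x.2) < 19 * ℓ) ∨
  (64 * P - 3 * ℓ < x.1 - v.1 ∧ x.1 - v.1 < 64 * P + 3 * ℓ ∧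
    13 * ℓ < s * (v.2 - x.2) ∧ s * (v.2 - x.2) < 16 * L + 3 * ℓ) ∨
  (64 * P - 3 * ℓ < x.1 - v.1 ∧ x.1 - v.1 < 32 * L + 3 * ℓ ∧
    16 * L - 3 * ℓ < s * (v.2 - x.2) ∧ s * (v.2 - x.2) < 16 * L + 3 * ℓ) ∨
  (29 * L < x.1 - v.1 ∧ x.1 - v.1 < 35 * L ∧ 13 * L < s * (v.2 - x.2) ∧ s * (v.2 - x.2) < 19 * L)

/-- The parameters. -/
structure PP25_P (ℓ₁ ℓ P L ℓ₃ : ℕ) : Prop where
  h1 : 16 ≤ ℓ₁
  h2 : 64 * ℓ₁ ≤ ℓ
  h3 : 16 * ℓ ≤ P
  h4 : 256 * P ≤ L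
  h5 : 64 * L ≤ ℓ₃

theorem PP25_in (x v w : V) (ℓ₁ ℓ P L ℓ₃ : ℕ) (h : PP25_P ℓ₁ ℓ P L ℓ₃) (s : ℤ)
    (hs : s = 1 ∨ s = -1) (hv : sd x v ≤ 32 * ℓ)
    (hv' : 4 * ℓ < sd (x.1 - 32 * ℓ, x.2 + s * (16 * ℓ)) v) (hw : PP25_Z x ℓ P L s w) :
    2 ≤ sd v w := by
  obtain ⟨h1, h2, h3, h4, h5⟩ := h
  unfold PP25_Z at hw
  unfold sd at *
  simp only at hv'
  rcases hs with rfl | rfl <;> omega

theorem PP25_out (x v w : V) (ℓ₁ ℓ P L ℓ₃ : ℕ) (h : PP25_P ℓ₁ ℓ P L ℓ₃) (s : ℤ)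
    (hs : s = 1 ∨ s = -1) (hv : 32 * L ≤ sd x v)
    (hv' : 4 * L < sd (x.1 - 32 * L, x.2 + s * (16 * L)) v) (hw : PP25_Z x ℓ P L s w) :
    2 ≤ sd v w := by
  obtain ⟨h1, h2, h3, h4, h5⟩ := h
  unfold PP25_Z at hw
  unfold sd at *
  simp only at hv'
  rcases hs with rfl | rfl <;> omega

theorem PP25_mid (x v w : V) (ℓ₁ ℓ P L ℓ₃ : ℕ) (h : PP25_P ℓ₁ ℓ P L ℓ₃)
    (hv : PP25_Z x ℓ P L 1 v) (hw : PP25_Z x ℓ P L (-1) w) : 2 ≤ sd v w := by
  obtain ⟨h1, h2, h3, h4, h5⟩ := h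
  unfold PP25_Z at hv hw
  unfold sd
  omega

theorem PP25_far (x v w : V) (ℓ₁ ℓ P L ℓ₃ : ℕ) (h : PP25_P ℓ₁ ℓ P L ℓ₃)
    (hv : sd x v ≤ 32 * ℓ) (hw : 32 * L ≤ sd x w) : 2 ≤ sd v w := by
  obtain ⟨h1, h2, h3, h4, h5⟩ := h
  have := sd_triangle x v w
  omega

theorem PP25_ann (x v : V) (ℓ₁ ℓ P L ℓ₃ : ℕ) (h : PP25_P ℓ₁ ℓ P L ℓ₃) (s : ℤ)
    (hs : s = 1 ∨ s = -1) (hv : PP25_Z x ℓ P L s v) : v ∈ ann x (29 * ℓ₁) (280 * ℓ₃) := by
  obtain ⟨h1, h2, h3, h4, h5⟩ := h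
  show 29 * ℓ₁ ≤ sd x v ∧ sd x v ≤ 280 * ℓ₃
  unfold PP25_Z at hv
  unfold sd
  rcases hs with rfl | rfl <;> omega

theorem PP25_sge (e : Bool) : sge e = 1 ∨ sge e = -1 := by
  cases e
  · exact Or.inr rfl
  · exact Or.inl rfl

/-- The number of the arm. -/
def PP25_i (e : Bool) : ℕ := if e = true then 3 else 4

theorem PP25_spot (x : V) (N : ℕ) (e : Bool) :
    zp6 x (32 * N) (PP25_i e) = (x.1 - 32 * N, x.2 + sge e * (16 * N)) := by
  cases e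
  · have h : (32 * N) / 2 = 16 * N := by omega
    simp only [zp6, PP25_i, sge, h]
    norm_num
    ring
  · have h : (32 * N) / 2 = 16 * N := by omega
    simp only [zp6, PP25_i, sge, h]
    norm_num

theorem PP25_conf (e : Bool) : conf (PP25_i e) (PP25_i (!e)) ∧ PP25_i e < 6 ∧
    kol6 (PP25_i e) = true := by
  cases e <;> simp [conf, PP25_i, kol6]

/-- The middle part joins the two arms. -/
theorem PP25_join (c : V → Bool) (R A B C : Set V) (hA : CnS c true R A) (hB : CnS c true R B)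
    (hC : CnS c true R C) (hAB : (B ∩ A).Nonempty) (hBC : (B ∩ C).Nonempty) :
    CnS c true R (A ∪ (B ∪ C)) := by
  obtain ⟨p, hp, hp'⟩ := hAB
  obtain ⟨q, hq, hq'⟩ := hBC
  refine ⟨?_, ?_⟩
  · rintro v (hv | hv | hv)
    · exact hA.1 v hv
    · exact hB.1 v hv
    · exact hC.1 v hv
  · have key : ∀ z ∈ A ∪ (B ∪ C), DP.Con (A ∪ (B ∪ C)) z p := by
      rintro z (hz | hz | hz)
      · exact (hA.2 z hz p hp').mono Set.subset_union_left
      · exact (hB.2 z hz p hp).mono (Set.subset_union_left.trans Set.subset_union_right)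
      · exact ((hC.2 z hz q hq').mono (Set.subset_union_right.trans Set.subset_union_right)).trans
          ((hB.2 q hq p hp).mono (Set.subset_union_left.trans Set.subset_union_right))
    intro z hz z' hz'
    exact (key z hz).trans (key z' hz').symm

theorem PP25 (hPP14 : PP14_stmt) : PP25_stmt := by
  intro c x m₀ n₀ ℓ₁ ℓ S ℓ₃ Ux Uo M hPar hUx hUo hM
  obtain ⟨p1, p2, p3, p4, p5, p6⟩ := hPar
  obtain ⟨P, hP⟩ : ∃ P, P = S * ℓ := ⟨_, rfl⟩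
  obtain ⟨L, hL⟩ : ∃ L, L = S ^ 3 * ℓ := ⟨_, rfl⟩
  rw [← hL] at p5 hUo
  have hℓ : 1 ≤ ℓ := by omega
  have hpar : PP25_P ℓ₁ ℓ P L ℓ₃ := by
    refine ⟨by omega, p3, ?_, ?_, p5⟩
    · rw [hP]
      exact Nat.mul_le_mul_right ℓ p4
    · rw [hP, hL, ← Nat.mul_assoc]
      apply Nat.mul_le_mul_right
      have : S ^ 3 = S ^ 2 * S := by ring
      rw [this]
      apply Nat.mul_le_mul_right
      nlinarith
  -- where the wires are
  have hreg : ∀ e, ∀ v ∈ M e, PP25_Z x ℓ P L (sge e) v := by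
    intro e v hv
    have h := (hPP14 x ℓ S e hℓ p4).2.2.2.2 v (((hM e).1.1 v hv).1)
    have e1 : (64 : ℤ) * S * ℓ = 64 * P := by rw [hP]; push_cast; ring
    have e2 : (16 : ℤ) * S ^ 3 * ℓ = 16 * L := by rw [hL]; push_cast; ring
    have e3 : (32 : ℤ) * S ^ 3 * ℓ = 32 * L := by rw [hL]; push_cast; ring
    have e4 : (29 : ℤ) * S ^ 3 * ℓ = 29 * L := by rw [hL]; push_cast; ring
    have e5 : (35 : ℤ) * S ^ 3 * ℓ = 35 * L := by rw [hL]; push_cast; ring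
    have e6 : (13 : ℤ) * S ^ 3 * ℓ = 13 * L := by rw [hL]; push_cast; ring
    have e7 : (19 : ℤ) * S ^ 3 * ℓ = 19 * L := by rw [hL]; push_cast; ring
    rw [e1, e2, e3, e4, e5, e6, e7] at h
    exact h
  -- the arms
  obtain ⟨ux1, ux2, ux3⟩ := hUx
  obtain ⟨uo1, uo2, uo3⟩ := hUo
  have hx : ∀ e, CnS c true (ann x (29 * ℓ₁) (280 * ℓ₃)) (Ux (PP25_i e)) ∧
      (∀ v ∈ Ux (PP25_i e), sd x v ≤ 32 * ℓ ∧
        4 * ℓ < sd (x.1 - 32 * ℓ, x.2 + sge (!e) * (16 * ℓ)) v) ∧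
      (M e ∩ Ux (PP25_i e)).Nonempty := by
    intro e
    obtain ⟨c1, c2, c3⟩ := PP25_conf e
    obtain ⟨⟨g1, g2⟩, p, hp, u, hu, hpb, hub, -, g3⟩ := ux3 (PP25_i e) c2 c3
    refine ⟨⟨?_, g2⟩, ?_, ?_⟩
    · intro v hv
      have hv1 : 256 * ℓ₁ ≤ sd x v ∧ sd x v ≤ 32 * ℓ := (g1 v hv).1.1
      refine ⟨?_, (g1 v hv).2⟩
      show 29 * ℓ₁ ≤ sd x v ∧ sd x v ≤ 280 * ℓ₃
      obtain ⟨k1, k2, k3, k4, k5⟩ := hpar
      omega
    · intro v hv
      have hv1 : 256 * ℓ₁ ≤ sd x v ∧ sd x v ≤ 32 * ℓ := (g1 v hv).1.1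
      refine ⟨hv1.2, ?_⟩
      have hv2 := ((g1 v hv).1.2 (PP25_i (!e)) (PP25_conf (!e)).2.1 c1).2
      rw [PP25_spot] at hv2
      have : 32 * ℓ / 8 = 4 * ℓ := by omega
      rw [this] at hv2
      exact hv2
    · rw [PP25_spot] at g3
      have hmem : (((x.1 - 32 * ℓ, x.2 + sge e * (16 * ℓ)) : V), ℓ) ∈ (midZ x ℓ S e).all := by
        refine List.mem_append.2 (Or.inl (List.mem_map.2 ⟨_, List.mem_flatMap.2
          ⟨((x.1 - 32 * ℓ, x.2 + sge e * (16 * ℓ)), 2, 32 * S - 16), ?_,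
            List.mem_map.2 ⟨0, List.mem_range.2 (by omega), ?_⟩⟩, rfl⟩))
        · simp [midZ]
        · simp [zpt]
      have hhook := (hM e).2 _ hmem
      refine hhook (Ux (PP25_i e)) u p (g2 u hu p hp) ?_ ?_
      · simp only
        omega
      · have hxA : sd x (x.1 - 32 * ℓ, x.2 + sge e * (16 * ℓ)) = 32 * ℓ := by
          unfold sd
          rcases PP25_sge e with h | h <;> rw [h] <;> simp only <;> omega
        have hpb' : sd x p = 256 * ℓ₁ := hpb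
        have h7 := sd_triangle x p (x.1 - 32 * ℓ, x.2 + sge e * (16 * ℓ))
        rw [sd_comm p] at h7
        simp only
        obtain ⟨k1, k2, k3, k4, k5⟩ := hpar
        omega
  have ho : ∀ e, CnS c true (ann x (29 * ℓ₁) (280 * ℓ₃)) (Uo (PP25_i e)) ∧
      (∀ v ∈ Uo (PP25_i e), 32 * L ≤ sd x v ∧
        4 * L < sd (x.1 - 32 * L, x.2 + sge (!e) * (16 * L)) v) ∧
      (M e ∩ Uo (PP25_i e)).Nonempty := by
    intro e
    obtain ⟨c1, c2, c3⟩ := PP25_conf e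
    obtain ⟨⟨g1, g2⟩, p, hp, u, hu, hpb, hub, g3, -⟩ := uo3 (PP25_i e) c2 c3
    refine ⟨⟨?_, g2⟩, ?_, ?_⟩
    · intro v hv
      have hv1 : 32 * L ≤ sd x v ∧ sd x v ≤ 32 * ℓ₃ := (g1 v hv).1.1
      refine ⟨?_, (g1 v hv).2⟩
      show 29 * ℓ₁ ≤ sd x v ∧ sd x v ≤ 280 * ℓ₃
      obtain ⟨k1, k2, k3, k4, k5⟩ := hpar
      omega
    · intro v hv
      have hv1 : 32 * L ≤ sd x v ∧ sd x v ≤ 32 * ℓ₃ := (g1 v hv).1.1
      refine ⟨hv1.1, ?_⟩
      have hv2 := ((g1 v hv).1.2 (PP25_i (!e)) (PP25_conf (!e)).2.1 c1).1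
      rw [PP25_spot] at hv2
      have : 32 * L / 8 = 4 * L := by omega
      rw [this] at hv2
      exact hv2
    · rw [PP25_spot] at g3
      have hmem : (((x.1 - 32 * L, x.2 + sge e * (16 * L)) : V), L) ∈ (midZ x ℓ S e).all := by
        refine List.mem_append.2 (Or.inr ?_)
        have e2 : (16 : ℤ) * S ^ 3 * ℓ = 16 * L := by rw [hL]; push_cast; ring
        have e3 : (32 : ℤ) * S ^ 3 * ℓ = 32 * L := by rw [hL]; push_cast; ring
        simp only [midZ, List.mem_singleton]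
        rw [e2, e3, ← hL]
      have hhook := (hM e).2 _ hmem
      refine hhook (Uo (PP25_i e)) p u (g2 p hp u hu) ?_ ?_
      · simp only
        omega
      · have hxA : sd x (x.1 - 32 * L, x.2 + sge e * (16 * L)) = 32 * L := by
          unfold sd
          rcases PP25_sge e with h | h <;> rw [h] <;> simp only <;> omega
        have hub' : sd x u = 32 * ℓ₃ := hub
        have h7 := sd_triangle x (x.1 - 32 * L, x.2 + sge e * (16 * L)) u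
        simp only
        obtain ⟨k1, k2, k3, k4, k5⟩ := hpar
        omega
  have hMc : ∀ e, CnS c true (ann x (29 * ℓ₁) (280 * ℓ₃)) (M e) := by
    intro e
    refine ⟨?_, (hM e).1.2⟩
    intro v hv
    exact ⟨PP25_ann x v ℓ₁ ℓ P L ℓ₃ hpar (sge e) (PP25_sge e) (hreg e v hv), ((hM e).1.1 v hv).2⟩
  refine ⟨fun e => Ux (PP25_i e) ∪ (M e ∪ Uo (PP25_i e)), ?_, ?_⟩
  · intro v hv w hw
    simp only at hv hw
    have hi : ∀ e, ∀ v ∈ Ux (PP25_i e), ∀ w ∈ M (!e), 2 ≤ sd v w := by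
      intro e v hv w hw
      exact PP25_in x v w ℓ₁ ℓ P L ℓ₃ hpar (sge (!e)) (PP25_sge (!e)) ((hx e).2.1 v hv).1
        ((hx e).2.1 v hv).2 (hreg (!e) w hw)
    have hoo : ∀ e, ∀ v ∈ Uo (PP25_i e), ∀ w ∈ M (!e), 2 ≤ sd v w := by
      intro e v hv w hw
      exact PP25_out x v w ℓ₁ ℓ P L ℓ₃ hpar (sge (!e)) (PP25_sge (!e)) ((ho e).2.1 v hv).1
        ((ho e).2.1 v hv).2 (hreg (!e) w hw)
    have hff : ∀ e e', ∀ v ∈ Ux (PP25_i e), ∀ w ∈ Uo (PP25_i e'), 2 ≤ sd v w := by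
      intro e e' v hv w hw
      exact PP25_far x v w ℓ₁ ℓ P L ℓ₃ hpar ((hx e).2.1 v hv).1 ((ho e').2.1 w hw).1
    rcases hv with hv | hv | hv <;> rcases hw with hw | hw | hw
    · exact ux2 v hv w hw
    · exact br_ne (hi true v hv w hw)
    · exact br_ne (hff true false v hv w hw)
    · have := hi false w hw v hv
      rw [sd_comm] at this
      exact br_ne this
    · exact br_ne (PP25_mid x v w ℓ₁ ℓ P L ℓ₃ hpar (hreg true v hv) (hreg false w hw))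
    · have := hoo false w hw v hv
      rw [sd_comm] at this
      exact br_ne this
    · have := hff false true w hw v hv
      rw [sd_comm] at this
      exact br_ne this
    · exact br_ne (hoo true v hv w hw)
    · exact uo2 v hv w hw
  · intro e
    refine ⟨PP25_join c _ _ _ _ (hx e).1 (hMc e) (ho e).1 (hx e).2.2 (ho e).2.2, ?_, ?_⟩
    · exact Set.subset_union_left
    · exact Set.subset_union_right.trans Set.subset_union_right

end TP
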