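import Pool.Agent.helper52.SP.Conf
import Pool.Agent.helper52.SP.KW

/-!
# The lower bound with parameters
-/

namespace Pool.Agent.helper52.SP

open Finset Pool.Agent.helper70.Sachs

lemma pow_decay {β : ℝ} (h0 : 0 ≤ β) (h1 : β ≤ 1) (m : ℕ) : (1 - β) ^ m * (1 + m * β) ≤ 1 := by
  have h2 : 1 + (m : ℝ) * β ≤ (1 + β) ^ m := one_add_mul_le_pow (by linarith) m
  calc (1 - β) ^ m * (1 + m * β) ≤ (1 - β) ^ m * (1 + β) ^ m :=
        mul_le_mul_of_nonneg_left h2 (pow_nonneg (by linarith) m)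
    _ = (1 - β ^ 2) ^ m := by rw [← mul_pow]; congr 1; ring
    _ ≤ 1 := pow_le_one₀ (by nlinarith) (by nlinarith)

lemma choose_bound {r t : ℕ} {y : ℝ} (ht : 3 * (r : ℝ) ≤ y * t) :
    (r.choose t : ℝ) ≤ y ^ t := by
  have h1 : (r.choose t : ℝ) ≤ (r : ℝ) ^ t / t.factorial := Nat.choose_le_pow_div t r
  have h2 : ((t : ℝ) ^ t) / t.factorial ≤ Real.exp t :=
    Real.pow_div_factorial_le_exp _ (by positivity) t
  have h3 : Real.exp t ≤ 3 ^ t := by
    have h4 : Real.exp t = Real.exp 1 ^ t := by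
      rw [← Real.exp_nat_mul]
      simp
    rw [h4]
    exact pow_le_pow_left₀ (Real.exp_pos 1).le (by linarith [Real.exp_one_lt_d9]) t
  rcases Nat.eq_zero_or_pos t with ht0 | ht0
  · subst ht0
    simp
  have htp : (0 : ℝ) < (t : ℝ) ^ t := by positivity
  have hf : (0 : ℝ) < t.factorial := by positivity
  refine h1.trans ?_
  rw [div_le_iff₀ hf]
  have h5 : (t : ℝ) ^ t ≤ 3 ^ t * t.factorial := by
    rw [div_le_iff₀ hf] at h2
    exact h2.trans (mul_le_mul_of_nonneg_right h3 hf.le)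
  have h6 : (3 * (r : ℝ)) ^ t ≤ (y * t) ^ t := pow_le_pow_left₀ (by positivity) ht t
  rw [mul_pow, mul_pow] at h6
  have hy : 0 ≤ y ^ t := by
    have h7 : (0 : ℝ) < t := by exact_mod_cast ht0
    have h8 : 0 ≤ y * t := le_trans (by positivity) ht
    exact pow_nonneg (nonneg_of_mul_nonneg_left h8 h7) t
  have h9 : (3 : ℝ) ^ t * (r : ℝ) ^ t ≤ 3 ^ t * (y ^ t * t.factorial) := by
    calc (3 : ℝ) ^ t * (r : ℝ) ^ t ≤ y ^ t * (t : ℝ) ^ t := h6
      _ ≤ y ^ t * (3 ^ t * t.factorial) := mul_le_mul_of_nonneg_left h5 hy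
      _ = 3 ^ t * (y ^ t * t.factorial) := by ring
  exact le_of_mul_le_mul_left h9 (by positivity)

/-- abstract form of the argument -/
theorem abstract_bound {V : Type*} [Fintype V] [DecidableEq V] (N B : V → Finset V)
    (hV : 0 < Fintype.card V) {M ℓ : ℕ} (hM : 1 ≤ M) (hℓ : 1 ≤ ℓ)
    (hB : ∀ x, (B x).card ≤ M) (hBx : ∀ x, x ∉ B x) {K D : ℝ} (hK : 2 ≤ K) (hD : 0 < D)
    (hss : ∀ U : Finset V, 2 * (Fintype.card V : ℝ) ≤ K * U.card →
      D * (U.card : ℝ) ^ 2 ≤ 2 * (Fintype.card V : ℝ) * ∑ x ∈ U, ((U ∩ N x).card : ℝ))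
    (hvℓ : Fintype.card V + 1 ≤ 2 ^ ℓ) (hbig : 64 * K ^ 2 * M * ℓ ≤ D) :
    ∃ X : Finset V, X.Nonempty ∧ (∀ x ∈ X, ∀ y ∈ X, y ∉ B x) ∧ ∀ (c : ℕ) (f : V → Fin c),
      (∀ x ∈ X, ∀ y ∈ X, y ∈ N x → f x ≠ f y) → K ≤ 25 * c := by
  classical
  set v : ℝ := (Fintype.card V : ℝ) with hv
  have hvpos : 0 < v := by
    rw [hv]
    exact_mod_cast hV
  have hMr : (1 : ℝ) ≤ M := by exact_mod_cast hM
  have hℓr : (1 : ℝ) ≤ ℓ := by exact_mod_cast hℓ
  have hKpos : 0 < K := by linarith
  -- `D ≤ 2 v`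
  have hD2v : D ≤ 2 * v := by
    have h1 := hss univ (by
      rw [Finset.card_univ, ← hv]
      exact mul_le_mul_of_nonneg_right hK hvpos.le)
    rw [Finset.card_univ, ← hv] at h1
    have h2 : ∑ x ∈ (univ : Finset V), (((univ : Finset V) ∩ N x).card : ℝ) ≤ v * v := by
      calc ∑ x ∈ (univ : Finset V), (((univ : Finset V) ∩ N x).card : ℝ)
          ≤ ∑ _x ∈ (univ : Finset V), v := by
            refine Finset.sum_le_sum fun x _ => ?_
            rw [hv, ← Finset.card_univ]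
            exact_mod_cast Finset.card_le_card Finset.inter_subset_left
        _ = v * v := by rw [Finset.sum_const, Finset.card_univ, nsmul_eq_mul]
    have h3 : D * v ^ 2 ≤ 2 * v * (v * v) :=
      h1.trans (mul_le_mul_of_nonneg_left h2 (by positivity))
    have h4 : v ^ 2 * D ≤ v ^ 2 * (2 * v) := by nlinarith
    exact le_of_mul_le_mul_left h4 (by positivity)
  set β : ℝ := D / (2 * v) with hβ
  have hβpos : 0 < β := by positivity
  have hβ1 : β ≤ 1 := by
    rw [hβ, div_le_one (by positivity)]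
    exact hD2v
  set R : ℝ := 2 * v / K with hR
  have hRpos : 0 < R := by positivity
  -- number of steps
  set m : ℕ := ⌈K / β⌉₊ with hm
  have hm1 : K / β ≤ m := Nat.le_ceil _
  have hm2 : (m : ℝ) < K / β + 1 := Nat.ceil_lt_add_one (by positivity)
  have hKβ : K / β = 2 * v * K / D := by
    rw [hβ]
    field_simp
  obtain ⟨C, hC, hI⟩ := container N (R := R) (β := β) hβ1 hRpos (by
    intro U hU
    have h1 : 2 * v ≤ K * U.card := by
      rw [hR, div_le_iff₀ hKpos] at hU
      linarith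
    have h2 := hss U h1
    rw [hβ, div_mul_eq_mul_div, div_le_iff₀ (by positivity)]
    linarith) (Fintype.card V) m univ (by rw [Finset.card_univ])
  have hCR : ∀ S, ((C S).card : ℝ) ≤ R := by
    intro S
    refine (hC S).trans (max_le le_rfl ?_)
    rw [Finset.card_univ, ← hv]
    have h1 := pow_decay hβpos.le hβ1 m
    have h2 : K ≤ m * β := by
      rw [div_le_iff₀ hβpos] at hm1
      exact hm1
    have h3 : 0 ≤ (1 - β) ^ m := pow_nonneg (by linarith) m
    rw [hR, le_div_iff₀ hKpos]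
    have h4 : (1 - β) ^ m * K ≤ 1 := by
      refine le_trans (mul_le_mul_of_nonneg_left ?_ h3) h1
      linarith
    nlinarith [mul_le_mul_of_nonneg_right h4 hvpos.le]
  set r : ℕ := ⌊R⌋₊ with hr
  have hrR : (r : ℝ) ≤ R := Nat.floor_le hRpos.le
  have hCr : ∀ S, (C S).card ≤ r := fun S => Nat.le_floor (hCR S)
  -- number of classes
  set L : ℕ := 4 * M with hL
  have hLr : (L : ℝ) = 4 * M := by rw [hL]; push_cast; ring
  have hLpos : (0 : ℝ) < L := by rw [hLr]; linarith
  set T₀ : ℕ := ⌈6 * R / L⌉₊ with hT₀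
  have hT1 : 6 * R / L ≤ T₀ := Nat.le_ceil _
  have hT2 : (T₀ : ℝ) < 6 * R / L + 1 := Nat.ceil_lt_add_one (by positivity)
  set t : ℕ := T₀ + ℓ * (m + 1) with ht
  have htr : (t : ℝ) = T₀ + ℓ * (m + 1) := by rw [ht]; push_cast; ring
  have hM2v : 64 * K ^ 2 * M ≤ 2 * v := by
    refine le_trans ?_ (hbig.trans hD2v)
    exact le_mul_of_one_le_right (by positivity) hℓr
  have h4L : 4 * L ≤ 2 ^ ℓ := by
    have h1 : (4 * L : ℝ) ≤ v := by
      rw [hLr]
      nlinarith [hM2v, mul_le_mul hK hK (by norm_num) hKpos.le]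
    have h2 : 4 * L ≤ Fintype.card V := by
      rw [hv] at h1
      exact_mod_cast h1
    omega
  have hcount : 4 * ((Fintype.card V + 1) ^ m * r.choose t * L) ≤ L ^ t := by
    have h1 : (r.choose t : ℝ) ≤ ((L : ℝ) / 2) ^ t := by
      apply choose_bound
      have h2 : 6 * R ≤ T₀ * L := by
        rw [div_le_iff₀ hLpos] at hT1
        exact hT1
      have h3 : (T₀ : ℝ) ≤ t := by
        rw [htr]
        have : (0 : ℝ) ≤ ℓ * (m + 1) := by positivity
        linarith
      nlinarith [mul_le_mul_of_nonneg_right h3 hLpos.le]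
    have h2 : ((Fintype.card V + 1 : ℕ) : ℝ) ^ m * (4 * L : ℕ) ≤ 2 ^ t := by
      have h3 : (Fintype.card V + 1) ^ m * (4 * L) ≤ 2 ^ t := by
        calc (Fintype.card V + 1) ^ m * (4 * L) ≤ (2 ^ ℓ) ^ m * 2 ^ ℓ :=
              Nat.mul_le_mul (Nat.pow_le_pow_left hvℓ m) h4L
          _ = 2 ^ (ℓ * (m + 1)) := by rw [← pow_mul, ← pow_add]; congr 1
          _ ≤ 2 ^ t := Nat.pow_le_pow_right (by norm_num) (by omega)
      exact_mod_cast h3
    have h3 : (4 * ((Fintype.card V + 1) ^ m * r.choose t * L) : ℝ) ≤ (L : ℝ) ^ t := by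
      push_cast at h2
      calc (4 * ((Fintype.card V + 1) ^ m * r.choose t * L) : ℝ)
          = ((Fintype.card V + 1) ^ m * (4 * L)) * r.choose t := by ring
        _ ≤ 2 ^ t * ((L : ℝ) / 2) ^ t := by
            refine mul_le_mul h2 h1 (by positivity) (by positivity)
        _ = (L : ℝ) ^ t := by rw [← mul_pow]; congr 1; ring
    exact_mod_cast h3
  obtain ⟨X, hX1, hX2, hX3⟩ := random_part N B hV hB hBx (L := L) (r := r) (t := t) (n := m)
    (by omega) le_rfl C hCr (fun I hind => hI I (Finset.subset_univ _) hind) hcount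
  have hXne : X.Nonempty := by
    rw [← Finset.card_pos]
    by_contra h
    have h1 : X.card = 0 := by omega
    rw [h1, mul_zero] at hX2
    omega
  refine ⟨X, hXne, hX1, ?_⟩
  intro c f hf
  -- the classes of the colouring
  have hcls : X.card ≤ c * (m + t) := by
    rw [Finset.card_eq_sum_card_fiberwise (f := f) (t := univ) (fun x _ => mem_univ _)]
    calc ∑ j : Fin c, (X.filter fun x => f x = j).card ≤ ∑ _j : Fin c, (m + t) := by
          refine Finset.sum_le_sum fun j _ => ?_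
          refine (hX3 _ (Finset.filter_subset _ _) ?_).le
          intro x hx y hy hxy
          rw [mem_filter] at hx hy
          exact hf x hx.1 y hy.1 hxy (hx.2.trans hy.2.symm)
      _ = c * (m + t) := by rw [Finset.sum_const, Finset.card_univ, Fintype.card_fin, smul_eq_mul]
  have hfin : v ≤ 2 * L * (c * (m + t)) := by
    have h1 : Fintype.card V ≤ 2 * L * (c * (m + t)) :=
      hX2.trans (Nat.mul_le_mul_left _ hcls)
    rw [hv]
    exact_mod_cast h1
  -- estimate of `m + t`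
  have hmt : (m : ℝ) + t ≤ 6 * R / L + 8 * ℓ * v * K / D := by
    have h1 : (m : ℝ) + 1 ≤ 4 * v * K / D := by
      have h2 : (2 : ℝ) ≤ 4 * v / D := by
        rw [le_div_iff₀ hD]
        linarith
      have h3 : 4 * v / D ≤ 2 * v * K / D := by
        rw [div_le_div_iff_of_pos_right hD]
        nlinarith
      have h4 : 4 * v * K / D = 2 * v * K / D + 2 * v * K / D := by ring
      rw [hKβ] at hm2
      linarith
    have h5 : (m : ℝ) + t ≤ 6 * R / L + 2 * (ℓ * (m + 1)) := by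
      rw [htr]
      have h6 : (m : ℝ) + 1 ≤ ℓ * (m + 1) := le_mul_of_one_le_left (by positivity) hℓr
      linarith
    refine h5.trans ?_
    have h7 : 2 * (ℓ * ((m : ℝ) + 1)) ≤ 2 * (ℓ * (4 * v * K / D)) := by
      refine mul_le_mul_of_nonneg_left (mul_le_mul_of_nonneg_left h1 (by positivity)) (by norm_num)
    have h8 : 2 * ((ℓ : ℝ) * (4 * v * K / D)) = 8 * ℓ * v * K / D := by ring
    linarith
  have hc0 : (0 : ℝ) ≤ c := by positivity
  have h1 : 2 * (L : ℝ) * (6 * R / L + 8 * ℓ * v * K / D) ≤ 25 * (v / K) := by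
    have h2 : 2 * (L : ℝ) * (6 * R / L) = 24 * (v / K) := by
      rw [hR]
      field_simp
      ring
    have h3 : 2 * (L : ℝ) * (8 * ℓ * v * K / D) ≤ v / K := by
      rw [hLr, le_div_iff₀ hKpos]
      have h4 : 2 * (4 * (M : ℝ)) * (8 * ℓ * v * K / D) * K = (64 * K ^ 2 * M * ℓ) * v / D := by ring
      rw [h4, div_le_iff₀ hD]
      rw [mul_comm v D]
      exact mul_le_mul_of_nonneg_right hbig hvpos.le
    rw [mul_add, h2]
    linarith
  have h2 : v ≤ c * (25 * (v / K)) := by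
    calc v ≤ 2 * L * (c * (m + t)) := hfin
      _ = c * (2 * L * (m + t)) := by ring
      _ ≤ c * (2 * L * (6 * R / L + 8 * ℓ * v * K / D)) := by
          refine mul_le_mul_of_nonneg_left (mul_le_mul_of_nonneg_left hmt (by positivity)) hc0
      _ ≤ c * (25 * (v / K)) := mul_le_mul_of_nonneg_left h1 hc0
  have h3 : v * K ≤ v * (25 * c) := by
    have h4 : c * (25 * (v / K)) * K = v * (25 * c) := by
      field_simp
    rw [← h4]
    exact mul_le_mul_of_nonneg_right h2 hKpos.le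
  exact le_of_mul_le_mul_left h3 hvpos

/-- the lower bound with parameters -/
theorem param {q : ℕ} [Fact q.Prime] {κ k d n c : ℕ} (hd : 1 ≤ d) (hdk : d ≤ k)
    (hkd : k * d + 1 ≤ q) (hκ : 1 ≤ κ) (hκq : κ ≤ q) (hn : k * q ^ 2 ≤ n) (hc : chi n ≤ c)
    {K : ℝ} (hK : K * k = (k.choose d : ℝ) * ((q : ℝ) - 1)) (hK2 : 2 ≤ K)
    (hbig : 64 * K ^ 2 * (k.choose (d - 1) * (q ^ κ) ^ (d - 1) : ℕ) * (k * κ * q : ℕ) ≤
      (k.choose d : ℝ) * (q.choose (κ - 1) : ℝ) ^ d) :
    K ≤ 25 * c := by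
  classical
  have hq2 : 2 ≤ q := (Fact.out : q.Prime).two_le
  have hk : 1 ≤ k := hd.trans hdk
  have hkr : (0 : ℝ) < k := by exact_mod_cast hk
  have : NeZero q := ⟨by omega⟩
  have hψ := ZMod.isPrimitive_stdAddChar q
  have hcardF : Fintype.card (ZMod q) = q := ZMod.card q
  set V := Fin k → (Fin κ → ZMod q) with hVdef
  have hcardA : Fintype.card (Fin κ → ZMod q) = q ^ κ := by
    rw [Fintype.card_fun, hcardF, Fintype.card_fin]
  have hcardV : Fintype.card V = (q ^ κ) ^ k := by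
    show Fintype.card (Fin k → (Fin κ → ZMod q)) = (q ^ κ) ^ k
    rw [Fintype.card_fun, hcardA, Fintype.card_fin]
  have hcardk : Fintype.card (Fin k) = k := Fintype.card_fin k
  let T : Finset V := touch (Fin k) (C1 (ZMod q) κ) d
  let N : V → Finset V := fun x => univ.filter fun y => y - x ∈ T
  let B : V → Finset V := fun x => univ.filter fun y => y ≠ x ∧ hammingNorm (y - x) < d
  set M : ℕ := k.choose (d - 1) * (q ^ κ) ^ (d - 1) with hM
  have hM1 : 1 ≤ M := by
    rw [hM]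
    have h1 : 0 < k.choose (d - 1) := Nat.choose_pos (by omega)
    have h2 : 0 < (q ^ κ) ^ (d - 1) := by positivity
    exact Nat.mul_pos h1 h2
  have hB : ∀ x, (B x).card ≤ M := by
    intro x
    have h1 := few_nonzero (ι := Fin k) (A := Fin κ → ZMod q) (d := d) hd (by rwa [hcardk])
    rw [hcardk, hcardA, ← hM] at h1
    refine le_trans ?_ h1
    refine Finset.card_le_card_of_injOn (fun y => y - x) ?_ ?_
    · intro y hy
      simp only [B, coe_filter, mem_univ, true_and, Set.mem_ofPred_eq] at hy ⊢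
      exact hy.2
    · intro y _ y' _ h
      exact sub_left_inj.mp h
  have hBx : ∀ x, x ∉ B x := by
    intro x hx
    simp only [B, mem_filter, mem_univ, true_and] at hx
    exact hx.1 rfl
  have hC1 : (q.choose (κ - 1) : ℝ) ≤ ((C1 (ZMod q) κ).card : ℝ) := by
    have h1 := C1_card (F := ZMod q) hκ
    rw [hcardF] at h1
    exact_mod_cast h1
  have hC1pos : 0 < (C1 (ZMod q) κ).card := by
    have h1 : 0 < q.choose (κ - 1) := Nat.choose_pos (by omega)
    have h2 : (0 : ℝ) < q.choose (κ - 1) := by exact_mod_cast h1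
    exact_mod_cast lt_of_lt_of_le h2 hC1
  set D : ℝ := (k.choose d : ℝ) * ((C1 (ZMod q) κ).card : ℝ) ^ d with hD
  have hchoosepos : (0 : ℝ) < k.choose d := by
    have := Nat.choose_pos hdk
    exact_mod_cast this
  have hDpos : 0 < D := by
    have : (0 : ℝ) < (C1 (ZMod q) κ).card := by exact_mod_cast hC1pos
    positivity
  have hbig' : 64 * K ^ 2 * M * (k * κ * q : ℕ) ≤ D := by
    refine hbig.trans ?_
    rw [hD]
    exact mul_le_mul_of_nonneg_left (pow_le_pow_left₀ (by positivity) hC1 d) hchoosepos.le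
  have hkq : (k : ℝ) * d ≤ (q : ℝ) - 1 := by
    have h1 : ((k * d + 1 : ℕ) : ℝ) ≤ q := by exact_mod_cast hkd
    push_cast at h1
    linarith
  have hss : ∀ U : Finset V, 2 * (Fintype.card V : ℝ) ≤ K * U.card →
      D * (U.card : ℝ) ^ 2 ≤ 2 * (Fintype.card V : ℝ) * ∑ x ∈ U, ((U ∩ N x).card : ℝ) := by
    intro U hU
    have h1 := supersat (F := ZMod q) (ι := Fin k) (C₁ := C1 (ZMod q) κ) C1_zero C1_smul
      (Finset.card_pos.mp hC1pos) d hd (by rwa [hcardk]) hψ
      (by rw [hcardk, hcardF]; exact hkq) U (by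
        rw [hcardk, hcardF, ← hK]
        have h2 := mul_le_mul_of_nonneg_left hU hkr.le
        linarith)
    rw [hcardk] at h1
    refine h1.trans (le_of_eq ?_)
    congr 1
    refine Finset.sum_congr rfl fun x _ => ?_
    congr 2
    ext y
    simp only [N, mem_filter, mem_inter, mem_univ, true_and]
    rfl
  have hvℓ : Fintype.card V + 1 ≤ 2 ^ (k * κ * q) := by
    rw [hcardV, ← pow_mul]
    have h1 : q + 1 ≤ 2 ^ q := Nat.lt_two_pow_self
    have h2 : q ^ (κ * k) + 1 ≤ (q + 1) ^ (κ * k) := by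
      have h3 : κ * k ≠ 0 := Nat.mul_ne_zero (by omega) (by omega)
      exact Nat.pow_lt_pow_left (by omega) h3
    calc q ^ (κ * k) + 1 ≤ (q + 1) ^ (κ * k) := h2
      _ ≤ (2 ^ q) ^ (κ * k) := Nat.pow_le_pow_left h1 _
      _ = 2 ^ (k * κ * q) := by rw [← pow_mul]; congr 1; ring
  have hℓ1 : 1 ≤ k * κ * q := Nat.mul_pos (Nat.mul_pos hk hκ) (by omega)
  have hVpos : 0 < Fintype.card V := Fintype.card_pos
  obtain ⟨X, ⟨x₀, hx₀⟩, hX1, hX2⟩ := abstract_bound N B hVpos hM1 hℓ1 hB hBx hK2 hDpos hss hvℓ hbig'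
  -- the packing
  let X' := {x : V // x ∈ X}
  set Δ : ℝ := 2 * (d * ((Fintype.card (ZMod q) : ℝ) - (κ - 1 : ℕ))) with hΔ
  have hΔpos : 0 < Δ := by
    have h1 : ((κ - 1 : ℕ) : ℝ) < (Fintype.card (ZMod q) : ℝ) := by
      rw [hcardF]
      have : κ - 1 < q := by omega
      exact_mod_cast this
    have h2 : (0 : ℝ) < d := by exact_mod_cast hd
    have h3 := sub_pos.mpr h1
    positivity
  obtain ⟨f, hf⟩ := chi_config (X := X') (J := Fin k × ZMod q × ZMod q) (n := n) (by
      rw [Fintype.card_prod, Fintype.card_prod, hcardF, hcardk]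
      refine le_trans (le_of_eq ?_) hn
      ring) (fun x => vec (x : V)) hΔpos (by
      intro x y hxy
      refine sqd_ge hκ (by rw [hcardF]; exact hκq) d (x : V) (y : V) ?_
      by_contra h
      push Not at h
      refine hX1 x x.2 y y.2 ?_
      simp only [B, mem_filter, mem_univ, true_and]
      exact ⟨fun h => hxy (Subtype.ext h.symm), h⟩) hc
  refine hX2 c (fun x => if h : x ∈ X then f ⟨x, h⟩ else f ⟨x₀, hx₀⟩) ?_
  intro x hx y hy hxy
  rw [dif_pos hx, dif_pos hy]
  simp only [N, mem_filter, mem_univ, true_and] at hxy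
  refine hf ⟨x, hx⟩ ⟨y, hy⟩ ?_ ?_
  · intro h
    have h1 : x = y := congrArg Subtype.val h
    have h2 : y - x = 0 := by rw [h1, sub_self]
    rw [h2] at hxy
    simp only [T, touch, mem_filter, mem_univ, true_and, hammingNorm_zero] at hxy
    omega
  · exact sqd_touch d x y hxy

end Pool.Agent.helper52.SP
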