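import Pool.Agent.helper2.SP.SpecTA

set_option autoImplicit false

/-!
# Module TA4 of project sp: a thick pair gives three crossing clusters of the flipped colouring
-/

namespace TP.TA

open DP MeasureTheory

open Classical in
/-- Paint `K` black. -/
noncomputable def TA4_p (K : Set V) (a : V → Bool) : V → Bool :=
  fun v => if v ∈ K then true else a v

theorem TA4_p_mem {K : Set V} {a : V → Bool} {v : V} (h : v ∈ K) : TA4_p K a v = true := by
  unfold TA4_p
  rw [if_pos h]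

theorem TA4_p_not {K : Set V} {a : V → Bool} {v : V} (h : v ∉ K) : TA4_p K a v = a v := by
  unfold TA4_p
  rw [if_neg h]

theorem TA4_p_false {K : Set V} {a : V → Bool} {v : V} (h : TA4_p K a v = false) :
    v ∉ K ∧ a v = false := by
  by_cases hv : v ∈ K
  · rw [TA4_p_mem hv] at h
    cases h
  · rw [TA4_p_not hv] at h
    exact ⟨hv, h⟩

theorem TA4 (hTA1 : TA1_stmt) (hTA2 : TA2_stmt) (hTC : DP.TC_stmt) : TA4_stmt := by
  intro c x m n K K' hx hm hmn hBC hT
  obtain ⟨hK, hK', hne, hbd⟩ := hT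
  obtain ⟨k1, k2, k3, k4, k5, k6, k7⟩ := hTA1.1 c x m n K hK
  obtain ⟨l1, l2, l3, l4, l5, l6, l7⟩ := hTA1.1 c x m n K' hK'
  obtain ⟨f1, f2, f3⟩ := hTA2.1 c x m n K hBC
  obtain ⟨f4, f5, f6⟩ := f3 hK
  obtain ⟨g1, g2, g3, g4, g5, g6, g7, g8⟩ := hTA2.2 c x m n K K' hBC ⟨hK, hK', hne, hbd⟩
  obtain ⟨a, ha⟩ : ∃ a, a = Th x m n K c := ⟨_, rfl⟩
  rw [← ha] at f4 f5 g4 g5
  rw [← ha]
  obtain ⟨u, huK, hu⟩ := k4
  obtain ⟨u', hu'K, hu'⟩ := k5
  obtain ⟨v, hvK, hv⟩ := l4
  obtain ⟨v', hv'K, hv'⟩ := l5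
  have hdis : ∀ w, w ∈ K → w ∉ K' := fun w h1 h2 => Set.disjoint_left.1 g6 h1 h2
  have htwo : twoCl (TA4_p K a) true x m n := by
    refine ⟨u, hu, v, hv, ⟨u', hu', ?_⟩, ⟨v', hv', ?_⟩, ?_⟩
    · refine DP.Con.mono ?_ (k3 u huK u' hu'K)
      intro w hw
      exact ⟨k1 hw, TA4_p_mem hw⟩
    · refine DP.Con.mono ?_ (l3 v hvK v' hv'K)
      intro w hw
      refine ⟨l1 hw, ?_⟩
      rw [TA4_p_not (fun h => hdis w h hw)]
      exact g4 w hw
    · intro hcon
      have h1 : u ∈ K' := by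
        refine DP.Con.induct (DP.Con.symm hcon) (fun w => w ∈ K') hvK ?_
        intro p q hp hq hpq _ hpK
        by_contra hqK
        have h2 : q ∈ nbd (ann x m n) K' := ⟨hq.1, hqK, p, hpK, hpq⟩
        have h3 : q ∉ K := fun h => Set.disjoint_left.1 g7 h h2
        have h4 := g5 q h2
        have h5 := hq.2
        rw [TA4_p_not h3, h4] at h5
        cases h5
      exact hdis u huK h1
  obtain ⟨p, hp, q, hq, ⟨p', hp', hpp⟩, ⟨q', hq', hqq⟩, hpq⟩ := (hTC (TA4_p K a) x m n hx hm hmn).2 htwo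
  have hto : ∀ y z, Conn (TA4_p K a) false (ann x m n) y z → Conn a false (ann x m n) y z := by
    intro y z h
    refine DP.Con.mono ?_ h
    intro w hw
    exact ⟨hw.1, (TA4_p_false hw.2).2⟩
  have hfrom : ∀ y z, y ∉ K → Conn a false (ann x m n) y z →
      Conn (TA4_p K a) false (ann x m n) y z := by
    intro y z hy h
    have key : z ∉ K ∧ Conn (TA4_p K a) false (ann x m n) y z := by
      refine DP.Con.induct h (fun w => w ∉ K ∧ Conn (TA4_p K a) false (ann x m n) y w) ?_ ?_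
      · refine ⟨hy, DP.Con.refl ⟨h.1.1, ?_⟩⟩
        rw [TA4_p_not hy]
        exact h.1.2
      · rintro s t hs ht hst - ⟨h1, h2⟩
        have h3 : t ∉ K := by
          intro htK
          have h4 : s ∈ nbd (ann x m n) K := ⟨hs.1, h1, t, htK, hst.symm⟩
          have h5 := f5 s (Or.inr h4)
          have h6 := hs.2
          rw [h5, k6 s h4] at h6
          cases h6
        refine ⟨h3, DP.Con.tail h2 hst ⟨ht.1, ?_⟩⟩
        rw [TA4_p_not h3]
        exact ht.2
    exact key.2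
  have hpK : p ∉ K := (TA4_p_false hpp.1.2).1
  have hqK : q ∉ K := (TA4_p_false hqq.1.2).1
  refine ⟨{w | Conn a false (ann x m n) p w}, {w | Conn a false (ann x m n) q w},
    ⟨p, hp, ⟨p', hp', hto _ _ hpp⟩, rfl⟩, ⟨q, hq, ⟨q', hq', hto _ _ hqq⟩, rfl⟩, ?_, ?_, ?_⟩
  · intro h
    apply hpK
    rw [h]
    exact DP.Con.refl (hto _ _ hpp).1
  · intro h
    apply hqK
    rw [h]
    exact DP.Con.refl (hto _ _ hqq).1
  · intro h
    apply hpq
    apply hfrom p q hpK
    have h1 : q ∈ {w | Conn a false (ann x m n) q w} := DP.Con.refl (hto _ _ hqq).1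
    rw [← h] at h1
    exact h1

end TP.TA
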