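import Pool.Agent.helper96.SP.SpecTB

set_option autoImplicit false

/-!
# Module TB3 of project sp: from curves to chains of cells
-/

namespace TP

open DP

theorem TB3 (hRTA : DP.RTA_stmt) : TB3_stmt := by
  classical
  intro s x i e η h T y f hhi hf
  have hl1 : 1 ≤ 2 ^ (i - h) := Nat.one_le_two_pow
  have key : ∀ l, ∃ gs : List V, l < 6 → (Chn (2 ^ (i - h)) gs ∧ gs.head? = some (f l 0) ∧
      gs.length ≤ 2 * T + 1 ∧ (∃ g, gs.getLast? = some g ∧ sd (f l T) g ≤ 2 ^ (i - h)) ∧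
      ∀ g ∈ gs, ∃ t ≤ T, sd (f l t) g ≤ 2 * 2 ^ (i - h)) := by
    intro l
    by_cases hl : l < 6
    · obtain ⟨gs, hgs⟩ := hRTA (2 ^ (i - h)) T (f l) hl1 (hf.step l hl)
      exact ⟨gs, fun _ => hgs⟩
    · exact ⟨[], fun h => absurd h hl⟩
  choose gs hgs using key
  have hreg : ∀ l < 6, ∀ v g, g ∈ gs l → sd g v ≤ 3 * 2 ^ (i - h) → ∃ t ≤ T,
      sd (f l t) v ≤ 5 * 2 ^ (i - h) := by
    intro l hl v g hg hgv
    obtain ⟨t, ht, hd⟩ := (hgs l hl).2.2.2.2 g hg
    refine ⟨t, ht, ?_⟩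
    have := sd_triangle (f l t) g v
    omega
  have hreg' : ∀ l < 6, ∀ v ∈ reg (2 ^ (i - h)) (gs l), ∃ t ≤ T,
      sd (f l t) v < 5 * 2 ^ (i - h) := by
    rintro l hl v ⟨g, hg, hgv⟩
    obtain ⟨t, ht, hd⟩ := (hgs l hl).2.2.2.2 g hg
    refine ⟨t, ht, ?_⟩
    have := sd_triangle (f l t) g v
    omega
  refine ⟨gs, ?_⟩
  refine
    { chn := fun l hl => (hgs l hl).1
      hd := fun l hl => by rw [(hgs l hl).2.1, hf.zero l hl]
      len := fun l hl => (hgs l hl).2.2.1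
      last := ?_
      near := ?_
      std := ?_
      oth := ?_
      sep := ?_
      big := ?_ }
  · intro l hl
    obtain ⟨g, h1, h2⟩ := (hgs l hl).2.2.2.1
    refine ⟨g, h1, ?_⟩
    have h3 := hf.last l hl
    have h4 := sd_triangle x g (f l T)
    have h5 := sd_triangle x (f l T) g
    rw [sd_comm g (f l T)] at h4
    split_ifs at h3 ⊢ with hs
    · omega
    · omega
  · intro l hl g hg v hv hvH
    obtain ⟨t, ht, hd⟩ := hreg l hl v g hg hv
    exact hf.near l hl t ht v hd hvH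
  · intro l hl g hg v hv hvb
    obtain ⟨t, ht, hd⟩ := hreg l hl v g hg hv
    exact hf.std l hl t ht v hd hvb
  · intro l hl l' hl' hne g hg v hv
    obtain ⟨t, ht, hd⟩ := hreg l hl v g hg hv
    exact hf.oth l hl l' hl' hne t ht v hd
  · intro l hl l' hl' hne v hv w hw
    obtain ⟨t, ht, hd⟩ := hreg' l hl v hv
    obtain ⟨t', ht', hd'⟩ := hreg' l' hl' w hw
    have h3 := hf.sep l hl l' hl' hne t ht t' ht'
    have h4 := sd_triangle (f l t) v (f l' t')
    have h5 := sd_triangle v w (f l' t')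
    rw [sd_comm w] at h5
    omega
  · intro l hl l' hl' hne v hv
    obtain ⟨t, ht, hd⟩ := hreg' l' hl' v hv
    have h3 := hf.big l hl l' hl' hne t ht
    have h4 := sd_triangle (y l) v (f l' t)
    rw [sd_comm v] at h4
    omega

end TP
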